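import Pool.Agent.H30.GMC.StT
import Pool.Agent.H58.FCB.LINE

/-!
EFFZ: `2 (m K_Z - ψ^* (m K))` is linearly equivalent to an effective divisor.
-/

open AlgebraicGeometry CategoryTheory FCB MvPolynomial

namespace GMC

namespace EFFZ

lemma ord_zpow {X : Scheme.{0}} [IsIntegral X] [IsLocallyNoetherian X] (x : X)
    (f : X.functionField) (hf : f ≠ 0) (n : ℤ) :
    Scheme.ord (f ^ n) x = n * Scheme.ord f x := by
  cases n with
  | ofNat n => simpa using FCB.LINE.ord_pow x f hf n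
  | negSucc n =>
    rw [zpow_negSucc, FCB.LINE.ord_inv _ _ (pow_ne_zero _ hf), FCB.LINE.ord_pow _ _ hf,
      Int.negSucc_eq]
    push_cast
    ring

lemma pull_pow (hPULA : S_PULA) {X Y : Scheme.{0}} [IsIntegral X] [IsLocallyNoetherian X]
    [IsIntegral Y] [IsLocallyNoetherian Y] (g : Y ⟶ X) {a : X.functionField}
    {b : Y.functionField} (h : IsPull g a b) (n : ℕ) : IsPull g (a ^ n) (b ^ n) := by
  induction n with
  | zero => simpa using (hPULA X Y g).2.2.1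
  | succ n ih =>
    rw [pow_succ, pow_succ]
    exact ((hPULA X Y g).2.1 _ _ _ _ ih h).1

lemma pull_zpow (hPULA : S_PULA) {X Y : Scheme.{0}} [IsIntegral X] [IsLocallyNoetherian X]
    [IsIntegral Y] [IsLocallyNoetherian Y] (g : Y ⟶ X) {a : X.functionField}
    {b : Y.functionField} (h : IsPull g a b) (hb : b ≠ 0) (n : ℤ) :
    IsPull g (a ^ n) (b ^ n) := by
  cases n with
  | ofNat n => simpa using pull_pow hPULA g h n
  | negSucc n =>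
    rw [zpow_negSucc, zpow_negSucc]
    exact (hPULA X Y g).2.2.2.2.1 _ _ (pull_pow hPULA g h _) (pow_ne_zero _ hb)

lemma wq_ne {K : Type} [Field K] {ξ : Fin 3 → K} (h : ∀ i, ξ i ≠ 0) (q : Fin 4) :
    wq ξ q ≠ 0 := by
  fin_cases q <;> simp [wq, h]

end EFFZ

open EFFZ in
theorem effz_thm (hPULA : S_PULA) (hBIRF : S_BIRF) (hFINS : S_FINS) (hPVC : S_PVC)
    (hFUNI : S_FUNI) (hCANC : S_CANC) (hBPUL : S_BPUL) (hEQUN : S_EQUN) (hLOCZ : S_LOCZ)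
    (hXIEX : S_XIEX) (hXDEX : S_XDEX) (hXNOR : S_XNOR) (hXCOV : S_XCOV) (hXCAR : S_XCAR)
    (hXCOO : S_XCOO) (hXCAN : S_XCAN) : S_EFFZ := by
  intro M Z ψ KZ KX m E hZ hstr hbir hKZ hKX hm hE
  obtain ⟨⟨ξ, hξ⟩, hξ'⟩ := hXIEX M
  obtain ⟨hne, -⟩ := hξ' ξ hξ
  obtain ⟨D, hD⟩ := hXDEX M
  have hgen : ψ (genericPoint Z.X) = genericPoint M.X := hbir.1
  -- `KX = -5 D` up to linear equivalence
  obtain ⟨K₁, hK₁, hlin₁⟩ := hCANC M.V KX hKX 3 ξ ((hXCOO M ξ hξ 0).1)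
  have hK₁' : ∀ p : PrimeDiv M.X,
      K₁ p = ((-5 : ℤ) • (Finsupp.single D 1 : WeilDiv M.X)) p := fun p =>
    hFUNI M.X M.str 3 ξ p _ _ (hK₁ p) (hXCAN M ξ hξ D hD p)
  obtain ⟨φ, hφ, hφ'⟩ := hlin₁
  -- the pull-backs
  choose ξ' hp hp' using fun i => (hBIRF.1 M.X Z.X ψ hgen (ξ i))
  obtain ⟨K₂, hK₂, hlin₂⟩ := hCANC Z KZ hKZ 3 ξ' (by
    have := hBPUL M.X Z.X M.str ψ 3 ξ ξ' hbir ((hXCOO M ξ hξ 0).1) hp
    rwa [hstr] at this)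
  obtain ⟨χ, hχ, hχ'⟩ := hlin₂
  obtain ⟨f, hf, hE'⟩ := hE
  obtain ⟨φ', hφp, hφne⟩ := hBIRF.1 M.X Z.X ψ hgen φ
  obtain ⟨f', hfp, hfne⟩ := hBIRF.1 M.X Z.X ψ hgen f
  have hφ0 := hφne hφ
  have hf0 := hfne hf
  -- the key computation
  have key : ∀ p : PrimeDiv Z.X,
      0 ≤ 2 * (m * K₂ p) + 2 * E p - 2 * m * Scheme.ord φ' p.1 - 2 * Scheme.ord f' p.1 := by
    intro p
    obtain ⟨h, h', hh, hq, hph, hh', hEp⟩ := hE' p
    obtain ⟨q, hq0⟩ := hXCOV M (ψ p.1)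
    obtain ⟨u', hu, hune⟩ := hBIRF.1 M.X Z.X ψ hgen (wq ξ q)⁻¹
    have hu0 := hune (inv_ne_zero (wq_ne hne q))
    have hcar := hXCAR M ξ hξ D hD (5 * m) q (ψ p.1) hq0
    have hloc := (hLOCZ M ξ hξ Z ψ p ξ' (K₂ p) q u' hstr hbir (hZ p.1) hp (hK₂ p) hq0 hu).1
    -- the other equation
    have hne2 : h ^ 2 * (φ ^ (2 * m) * f ^ 2)⁻¹ ≠ 0 :=
      mul_ne_zero (pow_ne_zero _ hh) (inv_ne_zero (mul_ne_zero (pow_ne_zero _ hφ)
        (pow_ne_zero _ hf)))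
    have heq : IsEq ((2 * (5 * (m : ℤ))) • (Finsupp.single D 1 : WeilDiv M.X)) (ψ p.1)
        (h ^ 2 * (φ ^ (2 * m) * f ^ 2)⁻¹) := by
      refine ⟨hne2, fun r hr => ?_⟩
      have e1 := hq r hr
      have e2 := hφ' r
      rw [hK₁' r] at e2
      rw [Scheme.ord_mul (pow_ne_zero _ hh) (inv_ne_zero (mul_ne_zero (pow_ne_zero _ hφ)
        (pow_ne_zero _ hf))), FCB.LINE.ord_inv _ _ (mul_ne_zero (pow_ne_zero _ hφ)
        (pow_ne_zero _ hf)), Scheme.ord_mul (pow_ne_zero _ hφ) (pow_ne_zero _ hf),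
        FCB.LINE.ord_pow _ _ hh, FCB.LINE.ord_pow _ _ hφ, FCB.LINE.ord_pow _ _ hf, ← e1]
      simp only [Finsupp.smul_apply, Finsupp.neg_apply, smul_eq_mul, nsmul_eq_mul] at e2 ⊢
      push_cast
      have e3 : KX r = -5 * (Finsupp.single D 1 : WeilDiv M.X) r - Scheme.ord φ r.1 := by
        linarith
      rw [e3]
      ring
    have hpull1 : IsPull ψ (h ^ 2 * (φ ^ (2 * m) * f ^ 2)⁻¹)
        (h' ^ 2 * (φ' ^ (2 * m) * f' ^ 2)⁻¹) :=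
      ((hPULA M.X Z.X ψ).2.1 _ _ _ _ (pull_pow hPULA ψ hph 2)
        ((hPULA M.X Z.X ψ).2.2.2.2.1 _ _ (((hPULA M.X Z.X ψ).2.1 _ _ _ _
          (pull_pow hPULA ψ hφp (2 * m)) (pull_pow hPULA ψ hfp 2)).1)
          (mul_ne_zero (pow_ne_zero _ hφ0) (pow_ne_zero _ hf0)))).1
    have hpull2 : IsPull ψ ((wq ξ q)⁻¹ ^ (5 * (m : ℤ))) (u' ^ (5 * (m : ℤ))) :=
      pull_zpow hPULA ψ hu hu0 _
    have hord := hEQUN.2 M.X Z.X ψ (hXNOR M) _ p _ _ _ _ (hZ p.1) heq hcar hpull1 hpull2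
      (mul_ne_zero (pow_ne_zero _ hh') (inv_ne_zero (mul_ne_zero (pow_ne_zero _ hφ0)
        (pow_ne_zero _ hf0)))) (zpow_ne_zero _ hu0)
    rw [Scheme.ord_mul (pow_ne_zero _ hh') (inv_ne_zero (mul_ne_zero (pow_ne_zero _ hφ0)
        (pow_ne_zero _ hf0))), FCB.LINE.ord_inv _ _ (mul_ne_zero (pow_ne_zero _ hφ0)
        (pow_ne_zero _ hf0)), Scheme.ord_mul (pow_ne_zero _ hφ0) (pow_ne_zero _ hf0),
        FCB.LINE.ord_pow _ _ hh', FCB.LINE.ord_pow _ _ hφ0, FCB.LINE.ord_pow _ _ hf0,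
        ord_zpow _ _ hu0, ← hEp] at hord
    push_cast at hord
    have : 2 * ((m : ℤ) * K₂ p) + 2 * E p - 2 * m * Scheme.ord φ' p.1 - 2 * Scheme.ord f' p.1
        = m * (2 * K₂ p + 5 * Scheme.ord u' p.1) := by
      linarith
    rw [this]
    positivity
  -- the effective divisor
  have := (hPVC Z).1
  have hF : χ ^ (2 * m) * (φ' ^ (2 * m) * f' ^ 2)⁻¹ ≠ 0 :=
    mul_ne_zero (pow_ne_zero _ hχ) (inv_ne_zero (mul_ne_zero (pow_ne_zero _ hφ0)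
      (pow_ne_zero _ hf0)))
  have hfin := hFINS Z.X _ hF
  let G : WeilDiv Z.X := 2 • (m • KZ + E) + Finsupp.ofSupportFinite
    (fun p : PrimeDiv Z.X => Scheme.ord (χ ^ (2 * m) * (φ' ^ (2 * m) * f' ^ 2)⁻¹) p.1) hfin
  have hG : ∀ p : PrimeDiv Z.X, G p = (2 • (m • KZ + E) : WeilDiv Z.X) p +
      Scheme.ord (χ ^ (2 * m) * (φ' ^ (2 * m) * f' ^ 2)⁻¹) p.1 := fun p => rfl
  refine ⟨G, fun p => ?_, _, hF, hG⟩
  rw [hG, Scheme.ord_mul (pow_ne_zero _ hχ) (inv_ne_zero (mul_ne_zero (pow_ne_zero _ hφ0)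
        (pow_ne_zero _ hf0))), FCB.LINE.ord_inv _ _ (mul_ne_zero (pow_ne_zero _ hφ0)
        (pow_ne_zero _ hf0)), Scheme.ord_mul (pow_ne_zero _ hφ0) (pow_ne_zero _ hf0),
        FCB.LINE.ord_pow _ _ hχ, FCB.LINE.ord_pow _ _ hφ0, FCB.LINE.ord_pow _ _ hf0]
  have k := key p
  rw [hχ' p] at k
  simp only [Finsupp.smul_apply, Finsupp.add_apply, nsmul_eq_mul, Finsupp.coe_zero,
    Pi.zero_apply]
  push_cast
  linarith

end GMC
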