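import Pool.Agent.H30.GMC.StT

/-!
Assembly of the final theorem from the statements of the modules.
-/

open AlgebraicGeometry CategoryTheory FCB MvPolynomial
open Pool.Agent.H22.GMC (Coord Maps Source stratum irreducibleComponents_maps not_subset_of_gt
  not_subset_of_lt not_dominates)

namespace GMC

/-- DOMI from the other statements. -/
theorem domi (hP : S_PSB) (hNB : S_NBIR) (hGF : S_GFIN) (hBI : S_BIRS) (hLI : S_LIFT)
    (hOP : S_OPNE) : S_DOMI := by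
  rintro M e m Φ hΦ h1 h2 ⟨Y, f, hb, N, hN, hdom⟩
  have hcomm : f ≫ M.str = Y.str := hb.1
  obtain ⟨⟨e', ψ₀⟩, hψ₀⟩ : N.Nonempty := hN.1.1
  obtain ⟨R, U, hU, hU0, hUR⟩ := hOP M Y f (e' + 1) ψ₀ hcomm
  have hfin := hGF hP M Y f R hcomm hb.2.1
  have hnb : ¬ (R.src hP).Birational := fun h => hNB M Y f hb (hBI hP M Y f R hcomm h)
  refine not_dominates (m := m) (e := e + 1) h2 h1 (R.src hP) hfin hnb ⟨e' + 1, ?_⟩
  have hopen : IsOpen ((fun c => (⟨e', c⟩ : Rat Y)) '' U) :=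
    isOpenMap_sigmaMk (σ := fun e => RatMap Y (e + 1)) (i := e') U hU
  have hne : (((fun c => (⟨e', c⟩ : Rat Y)) '' U) ∩ N).Nonempty := ⟨⟨e', ψ₀⟩, ⟨ψ₀, hU0, rfl⟩, hψ₀⟩
  have hsub := hdom _ hopen hne
  intro c hc
  have hc0 : (⟨e, Φ.symm c⟩ : Rat M.V) ∈ comp Φ m := ⟨Φ.symm c, by
    rw [Set.mem_preimage, Φ.apply_symm_apply]
    exact hc, rfl⟩
  have hcl := hsub hc0
  rw [mem_closure_iff] at hcl ⊢
  intro O hO hcO
  have hO' : IsOpen ((fun c => (⟨e, c⟩ : Rat M.V)) '' (Φ ⁻¹' O)) :=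
    isOpenMap_sigmaMk (σ := fun e => RatMap M.V (e + 1)) (i := e) _ (hO.preimage Φ.continuous)
  obtain ⟨x, ⟨c₁, hc₁, rfl⟩, ⟨c₂, hc₂, he⟩, ψ, ⟨⟨ψ₁, hψ₁, rfl⟩, hψN⟩, g, hg1, hg2⟩ := hcl _ hO'
    ⟨Φ.symm c, by
      rw [Set.mem_preimage, Φ.apply_symm_apply]
      exact hcO, rfl⟩
  have hcc : c₂ = c₁ := eq_of_heq (Sigma.mk.inj he).2
  subst hcc
  refine ⟨Φ c₂, hc₁, hc₂, ?_⟩
  refine hLI hP M Y f R hcomm (e' + 1) ψ₁.coeff g hg1.1 hg1.2 (hUR ψ₁ hψ₁) (e + 1) (Φ c₂) ?_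
  have hcoe : (fun p : Fin 10 × Fin (e + 1 + 1) => (Φ c₂).coeffs (eI p.1, p.2)) = c₂.coeff := by
    funext p
    rw [hΦ c₂, Equiv.symm_apply_apply]
  rw [hcoe]
  have h3 : IsGiven ((g ≫ f) ≫ M.emb) c₂.coeff := hg2.2
  rwa [Category.assoc] at h3

/-- A lower bound for the number of Manin components. -/
theorem le_manin (hHC : S_HCLS) (hDO : S_DOMI) (hHO : S_HOME) (hSI : S_SIGC) (M : XData)
    (D : PrimeDiv M.X) (dg : WeilDiv M.X →+ ℤ) (hD : M.IsD D) (hdg : M.IsDg D dg) (e N : ℕ)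
    (hN : 2 * N ≤ e + 1) :
    (N : ℕ∞) ≤ (maninComponents M.V (bet dg ((e + 1 : ℕ) / 2))).encard := by
  obtain ⟨Φ, hΦ⟩ := hHO M (e + 1)
  have hsub : (fun m => comp Φ m) '' (Finset.Icc 1 N : Set ℕ) ⊆
      maninComponents M.V (bet dg ((e + 1 : ℕ) / 2)) := by
    rintro _ ⟨m, hm, rfl⟩
    rw [Finset.coe_Icc, Set.mem_Icc] at hm
    refine ⟨?_, ?_, hDO M e m Φ hΦ hm.1 (by omega)⟩
    · refine hSI M.V e _ ?_
      have h1 : closure (stratum ℂ 2 (e + 1) m) ∈ irreducibleComponents (Maps ℂ 2 (e + 1)) := by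
        rw [irreducibleComponents_maps (by omega) (by omega)]
        exact ⟨m, by change 2 * m ≤ e + 1; omega, rfl⟩
      have h2 : Φ ⁻¹' closure (stratum ℂ 2 (e + 1) m) =
          Φ.symm '' closure (stratum ℂ 2 (e + 1) m) := by
        rw [Homeomorph.image_symm]
      rw [h2]
      refine ⟨h1.1.image _ Φ.symm.continuous.continuousOn, ?_⟩
      intro t ht hle
      have h3 : IsIrreducible (Φ '' t) := ht.image _ Φ.continuous.continuousOn
      have h4 : closure (stratum ℂ 2 (e + 1) m) ≤ Φ '' t := by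
        intro c hc
        exact ⟨Φ.symm c, hle ⟨c, hc, rfl⟩, Φ.apply_symm_apply c⟩
      have h5 := h1.2 h3 h4
      intro c hc
      exact ⟨Φ c, h5 ⟨c, hc, rfl⟩, Φ.symm_apply_apply c⟩
    · rintro c ⟨c₀, hc₀, rfl⟩
      obtain ⟨g, hg1, hg2⟩ := c₀.isMap
      exact ⟨g, ⟨hg1, hg2⟩, hHC M D dg hD hdg (e + 1) c₀.coeff g hg1 hg2⟩
  have hinj : Set.InjOn (fun m => comp Φ m) (Finset.Icc 1 N : Set ℕ) := by
    intro m hm m' hm' heq
    rw [Finset.coe_Icc, Set.mem_Icc] at hm hm'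
    have heq1 : closure (stratum ℂ 2 (e + 1) m) = closure (stratum ℂ 2 (e + 1) m') := by
      have h1 : (fun c => (⟨e, c⟩ : Rat M.V)) '' (Φ ⁻¹' closure (stratum ℂ 2 (e + 1) m)) =
          (fun c => (⟨e, c⟩ : Rat M.V)) '' (Φ ⁻¹' closure (stratum ℂ 2 (e + 1) m')) := heq
      have hinj2 : Function.Injective (fun c => (⟨e, c⟩ : Rat M.V)) := by
        intro a b hab
        exact eq_of_heq (Sigma.mk.inj hab).2
      have h2 := hinj2.image_injective h1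
      exact Φ.surjective.preimage_injective h2
    have hsub : stratum ℂ 2 (e + 1) m ⊆ closure (stratum ℂ 2 (e + 1) m') := by
      rw [← heq1]
      exact subset_closure
    rcases lt_trichotomy m m' with h | h | h
    · exact absurd hsub (not_subset_of_lt (by omega) (by omega) h)
    · exact h
    · exact absurd hsub (not_subset_of_gt (by omega) (by omega) h)
  calc (N : ℕ∞) = (Finset.Icc 1 N : Set ℕ).encard := by
        rw [Set.encard_coe_eq_coe_finsetCard, Nat.card_Icc]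
        simp
    _ = ((fun m => comp Φ m) '' (Finset.Icc 1 N : Set ℕ)).encard := (hinj.encard_image).symm
    _ ≤ _ := Set.encard_le_encard hsub

theorem final (hXE : S_XEX) (hDX : S_XDEX) (hDG : S_XDEG) (hQF : S_QFAC) (hTE : S_TERM)
    (hWF : S_WFAN) (hNA : S_NEFA) (hNB : S_NEFB) (hCC : S_CCLS) (hHC : S_HCLS) (hDO : S_DOMI)
    (hHO : S_HOME) (hSI : S_SIGC) : Answer := by
  obtain ⟨M⟩ := hXE
  obtain ⟨D, hD⟩ := hDX M
  obtain ⟨dg, hdg⟩ := hDG M D hD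
  have key : ∀ (α : WeilDiv M.V.X →+ ℝ) (N : ℕ), α ∈ Nef1 M.V → ∃ β : WeilDiv M.V.X →+ ℝ,
      IsCurveClass M.V β ∧ β - α ∈ Nef1 M.V ∧ N ≤ (maninComponents M.V β).encard := by
    intro α N hα
    obtain ⟨a, ha, rfl⟩ := hNA M D dg hD hdg α hα
    obtain ⟨k, hk⟩ := exists_nat_ge (2 * a)
    refine ⟨bet dg ((2 * N + k + 1 : ℕ) / 2), hCC M D dg hD hdg _ (by omega), ?_,
      le_manin hHC hDO hHO hSI M D dg hD hdg (2 * N + k) N (by omega)⟩
    have h1 : (bet dg ((2 * N + k + 1 : ℕ) / 2) - bet dg a : WeilDiv M.X →+ ℝ) =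
        bet dg ((2 * N + k + 1 : ℕ) / 2 - a) := by
      ext p
      simp [bet, sub_mul]
    have h2 : (bet dg ((2 * N + k + 1 : ℕ) / 2) - bet dg a : WeilDiv M.V.X →+ ℝ) =
        bet dg ((2 * N + k + 1 : ℕ) / 2 - a) := h1
    rw [h2]
    refine hNB M D dg hD hdg _ ?_
    push_cast
    have h3 : (0 : ℝ) ≤ N := Nat.cast_nonneg N
    linarith
  refine ⟨M.V, hQF M, hTE M, hWF M, ?_, key⟩
  rintro ⟨c, α, hα, h⟩
  obtain ⟨β, h1, h2, h3⟩ := key α (c + 1) hα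
  rw [h β h1 h2] at h3
  have h4 : c + 1 ≤ c := by exact_mod_cast h3
  omega

end GMC
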