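import Pool.Agent.H30.GMC.EFFZ

/-!
TERM: the variety is terminal. NBIR: breaking morphisms are not birational.
-/

open AlgebraicGeometry CategoryTheory FCB MvPolynomial

namespace GMC

open EFFZ in
theorem term_thm (hPULA : S_PULA) (hBIRF : S_BIRF) (hEQUN : S_EQUN) (hLOCZ : S_LOCZ)
    (hXNOR : S_XNOR) (hXIEX : S_XIEX) (hXDEX : S_XDEX) (hXCAN : S_XCAN) (hXCAR : S_XCAR)
    (hXCOV : S_XCOV) : S_TERM := by
  intro M
  obtain ⟨⟨ξ, hξ⟩, hξ'⟩ := hXIEX M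
  obtain ⟨hne, -⟩ := hξ' ξ hξ
  obtain ⟨D, hD⟩ := hXDEX M
  refine ⟨hXNOR M, 3, ξ, (-5 : ℤ) • (Finsupp.single D 1 : WeilDiv M.X), 2, by norm_num,
    fun p => hXCAN M ξ hξ D hD p, fun x => ?_, ?_⟩
  · obtain ⟨q, hq⟩ := hXCOV M x
    refine ⟨(wq ξ q)⁻¹ ^ (-5 : ℤ), ?_⟩
    have := hXCAR M ξ hξ D hD (-5) q x hq
    rw [mul_smul] at this
    exact this
  · intro W g hW hstr hbir E hE a' k h h' ha' hk heq hpull
    obtain ⟨q, hq⟩ := hXCOV M (g E.1)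
    obtain ⟨u', hu, hune⟩ := hBIRF.1 M.X W.X g hbir.1 (wq ξ q)⁻¹
    have hu0 := hune (inv_ne_zero (wq_ne hne q))
    have hcar := hXCAR M ξ hξ D hD (-5) q (g E.1) hq
    have hloc := (hLOCZ M ξ hξ W g E a' k q u' hstr hbir (hW E.1) ha' hk hq hu).2 hE
    have hh' : h' ≠ 0 := by
      obtain ⟨b, hb, hb'⟩ := hBIRF.1 M.X W.X g hbir.1 h
      rw [(hPULA M.X W.X g).1 _ _ _ hpull hb]
      exact hb' heq.1
    have heq' : IsEq ((2 * (-5 : ℤ)) • (Finsupp.single D 1 : WeilDiv M.X)) (g E.1) h := by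
      rw [mul_smul]
      exact heq
    have hord := hEQUN.2 M.X W.X g (hXNOR M) _ E _ _ _ _ (hW E.1) heq' hcar hpull
      (pull_zpow hPULA g hu hu0 (-5)) hh' (zpow_ne_zero _ hu0)
    rw [ord_zpow _ _ hu0] at hord
    rw [hord]
    push_cast
    linarith

theorem nbir_thm (hBIRF : S_BIRF) (hLINV : S_LINV) (hEFFZ : S_EFFZ) : S_NBIR := by
  rintro M Y f ⟨hstr, -, K, hK, h⟩ hbir
  rcases h with ⟨a, ha, h1⟩ | ⟨h, -⟩ | h
  · obtain ⟨Z, φ, KZ, E, m, ⟨-, hn, hφ, hφb⟩, hKZ, hm, hE, rfl⟩ := ha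
    have hb : IsBirational (φ ≫ f) := hBIRF.2 _ _ _ f φ hbir hφb
    have hs : (φ ≫ f) ≫ M.str = Z.str := by
      rw [Category.assoc]
      erw [hstr]
      exact hφ
    obtain ⟨G, hG, hlin⟩ := hEFFZ M Z (φ ≫ f) KZ K m E hn hs hb hKZ hK hm hE
    refine absurd h1 (not_lt.2 (sInf_le ⟨1, rfl, fun γ hγ => ?_⟩))
    have h2 := hLINV Z γ hγ.1 _ _ hlin
    have h3 := hγ.2 G hG
    rw [← h2] at h3
    simp only [map_nsmul, map_add, nsmul_eq_mul] at h3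
    have hm' : (0 : ℝ) < m := by exact_mod_cast hm
    have h4 : 0 ≤ (m : ℝ) * γ KZ + γ E := by
      push_cast at h3
      linarith
    have h5 : γ KZ + 1 * (γ E / m) = ((m : ℝ) * γ KZ + γ E) / m := by
      field_simp
    rw [h5]
    positivity
  · exact h.2.1 hbir
  · exact h.1.2.1 hbir

end GMC
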