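import Pool.Agent.H30.GMC.EFFZ

/-!
XAMP: positive multiples of the divisor `x_0 = 0` are ample.
-/

open AlgebraicGeometry CategoryTheory FCB MvPolynomial

namespace GMC

namespace XAMP

lemma qc_mem (q : Fin 4) : Qc q ∈ grd 9 1 := by
  fin_cases q <;> exact (isHomogeneous_X _ _)

lemma qc_pow_mem (q : Fin 4) (k : ℕ) : Qc q ^ k ∈ grd 9 k := by
  have h : (Qc q).IsHomogeneous 1 := qc_mem q
  have := h.pow k
  rw [one_mul] at this
  exact this

lemma rho_qc0 : rho (Qc 0) = X 0 * X 0 := by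
  change rho (Q (some (0, 0))) = _
  rw [Q, rho, aeval_X]
  simp [mon]

lemma qc0_notin : Qc 0 ∉ IX := by
  intro h
  rw [IX, RingHom.mem_ker] at h
  have h' : rho (Qc 0) = 0 := h
  rw [rho_qc0] at h'
  have := mul_self_eq_zero.1 h'
  exact X_ne_zero _ this

lemma ratio_pow (hRATB : S_RATB) {T : Scheme.{0}} [IsIntegral T] {n : ℕ} (h : T ⟶ PS n)
    {A B : MvPolynomial (Fin (n + 1)) ℂ} {f : T.functionField} (hf : IsRatio h A B f)
    (k : ℕ) (hk : 0 < k) : IsRatio h (A ^ k) (B ^ k) (f ^ k) := by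
  induction k with
  | zero => omega
  | succ k ih =>
    rcases Nat.eq_zero_or_pos k with rfl | hk'
    · simpa using hf
    · rw [pow_succ, pow_succ, pow_succ]
      exact ((hRATB T n h).1 _ _ _ _ _ _ (ih hk') hf).1

end XAMP

open XAMP EFFZ in
theorem xamp_thm (hPSB : S_PSB) (hRATA : S_RATA) (hRATB : S_RATB) (hRLOC : S_RLOC)
    (hORDV : S_ORDV) (hASUM : S_ASUM)
    (hHYPA : S_HYPA) (hVPT : S_VPT) (hXCOV : S_XCOV) (hXIEX : S_XIEX) (hXUQI : S_XUQI)
    (hXNOR : S_XNOR) (hXCAR : S_XCAR) : S_XAMP := by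
  intro M D hD k hk
  refine (hASUM M.V).2 _ 2 (by norm_num) ?_
  refine hHYPA M.V (hXNOR M) k (Qc 0 ^ k) _ hk (qc_pow_mem 0 k) ?_ ?_
  · intro h
    have hI : M.V.I = IX := M.gen
    rw [hI] at h
    have hp : IX.IsPrime := by
      rw [← hI]
      exact (hPSB 9).1 _
    exact qc0_notin (hp.mem_of_pow_mem _ h)
  · intro p B f hB hf
    obtain ⟨⟨ξ, hξ⟩, hξ'⟩ := hXIEX M
    obtain ⟨hne, -⟩ := hξ' ξ hξ
    obtain ⟨q, hq⟩ := hXCOV M p.1
    have hw := wq_ne hne q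
    -- degrees and genericity
    have hgenle : M.V.P (genericPoint M.X) ≤ M.V.P p.1 :=
      ((hVPT M.V).1 _ _).1 (genericPoint_specializes p.1)
    have hBdeg : B ∈ grd 9 k := by
      obtain ⟨d, hA, hB', -⟩ := hf
      have h0 : Qc 0 ^ k ≠ 0 := by
        intro h
        have h1 : Qc 0 ^ k ∈ IX := by rw [h]; exact IX.zero_mem
        have hp : IX.IsPrime := by
          rw [← (M.gen : M.V.I = IX)]
          exact (hPSB 9).1 _
        exact qc0_notin (hp.mem_of_pow_mem _ h1)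
      have h1 : (Qc 0 ^ k).IsHomogeneous d := hA
      have h2 : (Qc 0 ^ k).IsHomogeneous k := qc_pow_mem 0 k
      have : d = k := h1.inj_right h2 h0
      rw [← this]
      exact hB'
    have hBgen : B ∉ PI (M.emb (genericPoint M.X)) := fun h => hB (hgenle h)
    obtain ⟨f₂, hf₂⟩ := (hRATA M.X 9 M.emb).1 k (Qc q ^ k) B (qc_pow_mem q k) hBdeg hBgen
    have hg := ratio_pow hRATB M.emb (hXUQI M ξ hξ 0 q) k hk
    have hw0 : wq ξ 0 = 1 := rfl
    rw [hw0, one_div] at hg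
    have hprod := ((hRATB M.X 9 M.emb).1 _ _ _ _ _ _ hg hf₂).1
    have hff : f = (wq ξ q)⁻¹ ^ k * f₂ := by
      refine ((hRATA M.X 9 M.emb).2.1 _ _ _ _ _ _ hf hprod).2 ?_
      have : Qc 0 ^ k * (Qc q ^ k * B) - Qc 0 ^ k * Qc q ^ k * B = 0 := by ring
      rw [this]
      exact Ideal.zero_mem _
    have hP : (M.P p.1).IsPrime := (hPSB 9).1 _
    have hu := ((hRLOC M.X 9 M.emb p.1 _ _ _ hf₂ hB).2).2
      (fun h => hq (hP.mem_of_pow_mem _ h))
    have hf₂0 : f₂ ≠ 0 := by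
      rintro rfl
      obtain ⟨s, hs, hs0⟩ := hu
      have := hs.map (algebraMap _ M.X.functionField)
      rw [hs0] at this
      exact not_isUnit_zero this
    have ho := ((hORDV M.X p (hXNOR M p.1)).2.1 _ hf₂0).1 hu
    have hc := (hXCAR M ξ hξ D hD k q p.1 hq).2 p specializes_rfl
    rw [hff, Scheme.ord_mul (pow_ne_zero _ (inv_ne_zero hw)) hf₂0, ho, add_zero]
    rw [zpow_natCast] at hc
    rw [← hc, mul_smul]
    rfl

end GMC
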