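import Pool.Agent.H30.GMC.EFFZ

/-!
XCAR, QFAC, NEFA, NEFB, XAMP.
-/

open AlgebraicGeometry CategoryTheory FCB MvPolynomial

namespace GMC

namespace XCAR

lemma wq_ord {X : Scheme.{0}} [IsIntegral X] [IsLocallyNoetherian X] (x : X)
    {ξ : Fin 3 → X.functionField} (hne : ∀ i, ξ i ≠ 0)
    (h0 : Scheme.ord (ξ 0) x = -1) (h1 : Scheme.ord (ξ 1) x = -1)
    (h2 : Scheme.ord (ξ 2) x = -2) (q : Fin 4) (hq : q ≠ 0) :
    Scheme.ord (wq ξ q) x = -2 := by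
  fin_cases q
  · exact absurd rfl hq
  · change Scheme.ord (ξ 0 ^ 2) x = -2
    rw [FCB.LINE.ord_pow _ _ (hne 0), h0]
    norm_num
  · change Scheme.ord (ξ 1 ^ 2) x = -2
    rw [FCB.LINE.ord_pow _ _ (hne 1), h1]
    norm_num
  · exact h2

end XCAR

open EFFZ XCAR in
theorem xcar_thm (hVPT : S_VPT) (hORDV : S_ORDV) (hXNOR : S_XNOR) (hXIEX : S_XIEX)
    (hXUQR : S_XUQR) (hXODX : S_XODX) : S_XCAR := by
  intro M ξ hξ D hD k q x hq
  obtain ⟨hne, -⟩ := (hXIEX M).2 ξ hξ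
  have hw := wq_ne hne q
  refine ⟨zpow_ne_zero _ (inv_ne_zero hw), fun p hp => ?_⟩
  have hqp : Qc q ∉ M.P p.1 := fun h => hq (((hVPT M.V).1 p.1 x).1 hp h)
  rw [ord_zpow _ _ (inv_ne_zero hw), FCB.LINE.ord_inv _ _ hw]
  by_cases hpD : p = D
  · subst hpD
    have hq0 : q ≠ 0 := by
      rintro rfl
      exact hqp hD.1
    obtain ⟨h0, h1, h2, -⟩ := hXODX M ξ hξ p hD
    rw [wq_ord p.1 hne h0 h1 h2 q hq0]
    simp
    ring
  · have h0 : Qc 0 ∉ M.P p.1 := fun h => hpD (hD.2.2.2.2 p h)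
    have hu := ((hXUQR M ξ hξ 0 q p.1 hqp).2.2 h0)
    have hw0 : wq ξ 0 = 1 := rfl
    rw [hw0, one_div] at hu
    have := ((hORDV M.X p (hXNOR M p.1)).2.1 _ (inv_ne_zero hw)).1 hu
    rw [FCB.LINE.ord_inv _ _ hw] at this
    rw [this]
    simp [Ne.symm hpD]

open EFFZ XCAR in
theorem qfac_thm (hXNOR : S_XNOR) (hXDEX : S_XDEX) (hXCLG : S_XCLG) (hXCAR : S_XCAR)
    (hXCOV : S_XCOV) (hXIEX : S_XIEX) : S_QFAC := by
  intro M
  refine ⟨hXNOR M, fun E => ⟨2, by norm_num, fun x => ?_⟩⟩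
  obtain ⟨⟨ξ, hξ⟩, hξ'⟩ := hXIEX M
  obtain ⟨D, hD⟩ := hXDEX M
  obtain ⟨k, f, hf, hk⟩ := hXCLG M D hD E
  obtain ⟨q, hq⟩ := hXCOV M x
  obtain ⟨h1, h2⟩ := hXCAR M ξ hξ D hD k q x hq
  refine ⟨(wq ξ q)⁻¹ ^ k * (f ^ 2)⁻¹, mul_ne_zero h1 (inv_ne_zero (pow_ne_zero _ hf)),
    fun p hp => ?_⟩
  rw [Scheme.ord_mul h1 (inv_ne_zero (pow_ne_zero _ hf)), FCB.LINE.ord_inv _ _
    (pow_ne_zero _ hf), FCB.LINE.ord_pow _ _ hf, ← h2 p hp, mul_smul, Finsupp.smul_apply (2 : ℤ),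
    hk p, Finsupp.smul_apply]
  simp only [smul_eq_mul, nsmul_eq_mul]
  push_cast
  ring

theorem nefa_thm (hLINV : S_LINV) : S_NEFA := by
  intro M D dg hD hdg α hα
  refine ⟨α (Finsupp.single D 1), hα.2 _ (Finsupp.single_nonneg.2 (by norm_num)), ?_⟩
  refine AddMonoidHom.ext fun E => ?_
  have h1 : LinEquiv E (dg E • Finsupp.single D 1) := by
    rw [hdg.lin, map_zsmul, hdg.one]
    simp
  rw [hLINV M.V α hα.1 _ _ h1, map_zsmul]
  simp [bet, mul_comm]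

theorem nefb_thm (hXAMP : S_XAMP) : S_NEFB := by
  intro M D dg hD hdg a ha
  have hamp : IsAmple (Finsupp.single D 1 : WeilDiv M.X) := by
    simpa using hXAMP M D hD 1 one_pos
  have pos : ∀ H : WeilDiv M.X, IsAmple H → 0 ≤ dg H := by
    intro H hH
    obtain ⟨n, E, U, hn, hlin, hE, -⟩ := hH (genericPoint M.X)
    have h1 := (hdg.lin _ _).1 hlin
    have h2 := hdg.eff E hE
    rw [← h1, map_nsmul, nsmul_eq_mul] at h2
    have hn' : (0 : ℤ) < n := by exact_mod_cast hn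
    exact nonneg_of_mul_nonneg_right h2 hn'
  refine ⟨fun D' hD' => ?_, fun E hE => ?_⟩
  · have h2 := (numTriv M.X).nsmul_mem hD' 2
    have h3 := pos _ (h2 _ hamp).1
    have h4 := pos _ (h2 _ hamp).2
    rw [map_add, map_nsmul, hdg.one, nsmul_eq_mul] at h3
    rw [map_sub, map_nsmul, hdg.one, nsmul_eq_mul] at h4
    have h5 : dg D' = 0 := by
      push_cast at h3 h4
      omega
    simp [bet, h5]
  · have := hdg.eff E hE
    have h' : (0 : ℝ) ≤ dg E := by exact_mod_cast this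
    simp only [bet, AddMonoidHom.comp_apply, AddMonoidHom.coe_mulLeft, Int.coe_castAddHom]
    positivity

end GMC
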