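import Pool.Agent.H11.GMC.XODX
import Pool.Agent.H11.GMC.XORF
import Pool.Agent.H11.GMC.XPRE
import Pool.Agent.H12.GMC.JACC
import Pool.Agent.H12.GMC.LOCO
import Pool.Agent.H13.GMC.BIRS
import Pool.Agent.H13.GMC.REPF
import Pool.Agent.H13.GMC.REPX
import Pool.Agent.H19.GMC.PULA
import Pool.Agent.H19.GMC.PULB
import Pool.Agent.H20.GMC.GFIN
import Pool.Agent.H20.GMC.LIFT
import Pool.Agent.H20.GMC.RGEN
import Pool.Agent.H20.GMC.RLOC
import Pool.Agent.H24.GMC.HARA
import Pool.Agent.H24.GMC.ORDV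
import Pool.Agent.H30.GMC.EFFZ
import Pool.Agent.H30.GMC.TERM
import Pool.Agent.H30.GMC.XAMP
import Pool.Agent.H30.GMC.XCAR
import Pool.Agent.H31.GMC.MORA
import Pool.Agent.H31.GMC.MORB
import Pool.Agent.H31.GMC.PVC
import Pool.Agent.H32.GMC.BPUL
import Pool.Agent.H32.GMC.FDER
import Pool.Agent.H32.GMC.JCHG
import Pool.Agent.H32.GMC.LOCS
import Pool.Agent.H32.GMC.LOCZ
import Pool.Agent.H33.GMC.RATA
import Pool.Agent.H33.GMC.XCOV
import Pool.Agent.H34.GMC.XCLG
import Pool.Agent.H34.GMC.XEX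
import Pool.Agent.H47.GMC.FINS
import Pool.Agent.H47.GMC.HART
import Pool.Agent.H47.GMC.HCLS
import Pool.Agent.H47.GMC.LINV
import Pool.Agent.H49.GMC.ASUM
import Pool.Agent.H49.GMC.EQUN
import Pool.Agent.H49.GMC.HYPA
import Pool.Agent.H49.GMC.KRUL
import Pool.Agent.H5.GMC.BIRF
import Pool.Agent.H50.GMC.XSPE
import Pool.Agent.H58.GMC.THX
import Pool.Agent.H59.GMC.WFAN
import Pool.Agent.H65.GMC.XIDL
import Pool.Agent.H65.GMC.XNOR
import Pool.Agent.H65.GMC.XSNG
import Pool.Agent.H66.GMC.OPNE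
import Pool.Agent.H66.GMC.XCAN
import Pool.Agent.H66.GMC.XCHA
import Pool.Agent.H66.GMC.XCOO
import Pool.Agent.H66.GMC.XDEG
import Pool.Agent.H66.GMC.XPRI
import Pool.Agent.H70.GMC.JACO
import Pool.Agent.H70.GMC.RATB
import Pool.Agent.H84.GMC.RPUL
import Pool.Agent.H84.GMC.XPOL
import Pool.Agent.H84.GMC.XREG
import Pool.Agent.H84.GMC.XUQI
import Pool.Agent.H85.GMC.P1C
import Pool.Agent.H85.GMC.P1D
import Pool.Agent.H87.GMC.SUBA
import Pool.Agent.H87.GMC.SUBB
import Pool.Agent.H93.GMC.CCLS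
import Pool.Agent.H93.GMC.SIGC
import Pool.Agent.H99.GMC.PSB
import Pool.Agent.H99.GMC.RATX
import Pool.Agent.H30.GMC.Final

/-!
All modules together.
-/

namespace GMC.All

theorem psb : S_PSB :=
  psb_thm

theorem ipt : S_IPT :=
  ipt_thm

theorem jaco : S_JACO :=
  jaco_thm

theorem rata : S_RATA :=
  rata_thm

theorem ratb : S_RATB :=
  ratb_thm psb

theorem rloc : S_RLOC :=
  rloc_thm

theorem rgen : S_RGEN :=
  rgen_thm

theorem pula : S_PULA :=
  pula_thm

theorem pulb : S_PULB :=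
  pulb_thm

theorem rpul : S_RPUL :=
  rpul_thm

theorem birf : S_BIRF :=
  birf_thm

theorem vpt : S_VPT :=
  vpt_thm psb

theorem exv : S_EXV :=
  exv_thm

theorem pvc : S_PVC :=
  pvc_thm

theorem mora : S_MORA :=
  mora_thm psb ipt

theorem morb : S_MORB :=
  morb_thm jaco

theorem suba : S_SUBA :=
  suba_thm psb ipt jaco

theorem subb : S_SUBB :=
  subb_thm psb ipt rata ratb rloc rgen suba

theorem ordv : S_ORDV :=
  ordv_thm

theorem hara : S_HARA :=
  hara_thm

theorem hart : S_HART :=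
  hart_thm ordv hara

theorem krul : S_KRUL :=
  krul_thm hart

theorem fins : S_FINS :=
  fins_thm

theorem asum : S_ASUM :=
  asum_thm

theorem hypa : S_HYPA :=
  hypa_thm psb rata ratb rloc pvc ordv krul fins

theorem linv : S_LINV :=
  linv_thm

theorem p1c : S_P1C :=
  p1c_thm psb rata ratb rloc rgen

theorem p1d : S_P1D :=
  p1d_thm psb ipt rata ratb rloc rgen ordv

theorem p1e : S_P1E :=
  p1e_thm psb rata ratb rgen p1d

theorem fder : S_FDER :=
  fder_thm

theorem funi : S_FUNI :=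
  funi_thm

theorem canc : S_CANC :=
  canc_thm pvc fins

theorem bpul : S_BPUL :=
  bpul_thm pula birf

theorem jacc : S_JACC :=
  jacc_thm

theorem loco : S_LOCO :=
  loco_thm jacc

theorem jchg : S_JCHG :=
  jchg_thm

theorem locs : S_LOCS :=
  locs_thm loco jchg

theorem xidl : S_XIDL :=
  xidl_thm

theorem xex : S_XEX :=
  xex_thm psb exv xidl

theorem xcov : S_XCOV :=
  xcov_thm psb vpt

theorem xthe : S_XTHE :=
  xthe_thm rata ratb rgen

theorem xdeh : S_XDEH :=
  xdeh_thm rata ratb xidl xthe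

theorem xiex : S_XIEX :=
  xiex_thm rata ratb rgen xdeh

theorem xuqi : S_XUQI :=
  xuqi_thm rata ratb

theorem xuqr : S_XUQR :=
  xuqr_thm rloc xuqi

theorem xcha : S_XCHA :=
  xcha_thm psb rata ratb rloc rgen xdeh

theorem xpdh : S_XPDH :=
  xpdh_thm psb rloc xdeh

theorem xpri : S_XPRI :=
  xpri_thm xiex xcha

theorem xpre : S_XPRE :=
  xpre_thm psb vpt rloc xidl xdeh

theorem xspe : S_XSPE :=
  xspe_thm psb vpt xdeh xpdh

theorem xnor : S_XNOR :=
  xnor_thm psb rata rloc ratb rgen xidl xcov xthe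

theorem xsng : S_XSNG :=
  xsng_thm psb vpt xidl xiex xpdh xpre

theorem xdex : S_XDEX :=
  xdex_thm vpt xiex xpdh xpri xpre xspe xsng

theorem xorf : S_XORF :=
  xorf_thm ordv xnor xcha

theorem xodx : S_XODX :=
  xodx_thm xpdh xpri xorf xiex

theorem xpol : S_XPOL :=
  xpol_thm

theorem xpos : S_XPOS :=
  xpos_thm xorf xodx xpol

theorem xreg : S_XREG :=
  xreg_thm xiex xpri xpre xorf

theorem xclg : S_XCLG :=
  xclg_thm xpri xspe xorf xiex

theorem xdeg : S_XDEG :=
  xdeg_thm xiex xpos xreg xclg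

theorem xcar : S_XCAR :=
  xcar_thm vpt ordv xnor xiex xuqr xodx

theorem xamp : S_XAMP :=
  xamp_thm psb rata ratb rloc ordv asum hypa vpt xcov xiex xuqi xnor xcar

theorem xcoo : S_XCOO :=
  xcoo_thm xiex xcha

theorem xdet : S_XDET :=
  xdet_thm

theorem xcan : S_XCAN :=
  xcan_thm xiex xcoo xdet xodx

theorem xcpt : S_XCPT :=
  xcpt_thm vpt xidl

theorem equn : S_EQUN :=
  equn_thm hart ordv pula

theorem locz : S_LOCZ :=
  locz_thm ordv pula birf fder loco jchg locs xiex xuqr xcha xpri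

theorem term : S_TERM :=
  term_thm pula birf equn locz xnor xiex xdex xcan xcar xcov

theorem qfac : S_QFAC :=
  qfac_thm xnor xdex xclg xcar xcov xiex

theorem wfan : S_WFAN :=
  wfan_thm asum xnor xiex xdex xamp xcan

theorem effz : S_EFFZ :=
  effz_thm pula birf fins pvc funi canc bpul equn locz xiex xdex xnor xcov xcar xcoo xcan

theorem nbir : S_NBIR :=
  nbir_thm birf linv effz

theorem nefa : S_NEFA :=
  nefa_thm linv

theorem nefb : S_NEFB :=
  nefb_thm xamp

theorem ratx : S_RATX :=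
  ratx_thm mora morb xcpt

theorem hcls : S_HCLS :=
  hcls_thm psb pula rpul suba subb p1d p1e equn xnor xiex xcov xuqi xuqr xcar

theorem ccls : S_CCLS :=
  ccls_thm p1c ratx hcls

theorem home : S_HOME :=
  home_thm ratx

theorem sigc : S_SIGC :=
  sigc_thm

theorem repf : S_REPF :=
  repf_thm psb ipt rata ratb rloc rgen

theorem thet : S_THET :=
  thet_thm psb rata ratb rgen

theorem repx : S_REPX :=
  repx_thm psb repf

theorem gfin : S_GFIN :=
  gfin_thm rata ratb rgen rpul thet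

theorem birs : S_BIRS :=
  birs_thm vpt rata ratb rpul pula rgen xdeh xiex thet

theorem lift : S_LIFT :=
  lift_thm ipt

theorem opne : S_OPNE :=
  opne_thm ipt repx

theorem domi : S_DOMI :=
  GMC.domi psb nbir gfin birs lift opne

theorem answer : Answer :=
  GMC.final xex xdex xdeg qfac term wfan nefa nefb ccls hcls domi home sigc

end GMC.All
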