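import Pool.Agent.H30.GMC.Pub

/-!
Auxiliary notions for the statements of the modules.
-/

open AlgebraicGeometry CategoryTheory FCB

namespace GMC

/-- The ideal of the point `x` of `V`. -/
noncomputable def PVar.P (V : PVar) (x : V.X) : Ideal (MvPolynomial (Fin (V.n + 1)) ℂ) :=
  PI (V.emb x)

/-- The homogeneous ideal of `V`. -/
noncomputable def PVar.I (V : PVar) : Ideal (MvPolynomial (Fin (V.n + 1)) ℂ) :=
  V.P (genericPoint V.X)

/-- `f` is the rational function `A / B` on `T`, pulled back from `ℙⁿ` by `h`. -/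
def IsRatio {T : Scheme.{0}} [IsIntegral T] {n : ℕ} (h : T ⟶ PS n)
    (A B : MvPolynomial (Fin (n + 1)) ℂ) (f : T.functionField) : Prop :=
  ∃ (d : ℕ) (hA : A ∈ grd n d) (hB : B ∈ grd n d) (hn : B ∉ PI (h (genericPoint T))),
    f = (h.stalkMap (genericPoint T)).hom ((Proj.stalkIso (grd n) (h (genericPoint T))).inv.hom
      (HomogeneousLocalization.mk ⟨d, ⟨A, hA⟩, ⟨B, hB⟩, hn⟩))

section

variable {T : Scheme.{0}} [IsIntegral T]

/-- `f` is regular at `x`. -/
def RegAt (x : T) (f : T.functionField) : Prop :=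
  ∃ s : T.presheaf.stalk x, algebraMap _ T.functionField s = f

/-- `f` is regular and invertible at `x`. -/
def UnitAt (x : T) (f : T.functionField) : Prop :=
  ∃ s : T.presheaf.stalk x, IsUnit s ∧ algebraMap _ T.functionField s = f

end

/-- The binary forms with coefficients `c` as polynomials in two variables. -/
noncomputable def bf {n e : ℕ} (c : Fin (n + 1) × Fin (e + 1) → ℂ) (i : Fin (n + 1)) :
    MvPolynomial (Fin 2) ℂ :=
  ∑ j : Fin (e + 1), MvPolynomial.C (c (i, j)) * MvPolynomial.X 0 ^ (j : ℕ) *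
    MvPolynomial.X 1 ^ (e - j)

/-- `O` is the ring of a discrete valuation `v` (with an arbitrary value at `0`). -/
structure IsDV {K : Type} [Field K] (O : Subring K) (v : K → ℤ) : Prop where
  mul : ∀ a b, a ≠ 0 → b ≠ 0 → v (a * b) = v a + v b
  mem : ∀ a, a ∈ O ↔ a = 0 ∨ 0 ≤ v a
  unif : ∃ a, a ≠ 0 ∧ v a = 1

/-- The Jacobian determinant of three elements with respect to three derivations. -/
noncomputable def Jac {K : Type} [Field K] [Algebra ℂ K] (δ : Fin 3 → Derivation ℂ K K)
    (a : Fin 3 → K) : K :=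
  Matrix.det (Matrix.of fun i j => δ j (a i))

end GMC
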