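import Mathlib

/-!
Projective spaces and projective varieties over the complex numbers, and the spaces of morphisms
from the projective line to a projective variety.
-/

open AlgebraicGeometry CategoryTheory

namespace GMC

/-- The points of a scheme. -/
def Pnt (X : Scheme.{0}) : Type := X

/-- The image of a point under a continuous map. -/
abbrev cont {X Y : TopCat.{0}} (g : Y ⟶ X) (y : Y) : X := g y

/-- The image of a point under a morphism of schemes. -/
abbrev pmap {X Y : Scheme.{0}} (g : Y ⟶ X) (y : Pnt Y) : Pnt X := cont g.base y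

/-- The standard grading of the polynomial ring in `n + 1` variables. -/
abbrev grd (n : ℕ) : ℕ → Submodule ℂ (MvPolynomial (Fin (n + 1)) ℂ) :=
  MvPolynomial.homogeneousSubmodule (Fin (n + 1)) ℂ

noncomputable instance (n : ℕ) : GradedAlgebra (grd n) := MvPolynomial.gradedAlgebra

/-- The projective space `ℙⁿ` over `ℂ`. -/
noncomputable def PS (n : ℕ) : Scheme.{0} := Proj (grd n)

/-- The structure morphism of `ℙⁿ`. -/
noncomputable def PSstr (n : ℕ) : PS n ⟶ Spec (.of ℂ) :=
  Proj.toSpecZero (grd n) ≫ Spec.map (CommRingCat.ofHom (algebraMap ℂ (grd n 0)))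

/-- The homogeneous prime ideal of a point of `ℙⁿ`. -/
noncomputable def PI {n : ℕ} (x : PS n) : Ideal (MvPolynomial (Fin (n + 1)) ℂ) :=
  (show ProjectiveSpectrum (grd n) from x).asHomogeneousIdeal.toIdeal

/-- `x` is the point of `ℙⁿ` with homogeneous coordinates `v`. -/
def IsPt {n : ℕ} (x : PS n) (v : Fin (n + 1) → ℂ) : Prop :=
  ∀ (d : ℕ) (p : MvPolynomial (Fin (n + 1)) ℂ), p.IsHomogeneous d →
    (p ∈ PI x ↔ MvPolynomial.eval v p = 0)

/-- Projective varieties over `ℂ`: integral closed subschemes of `ℙⁿ`. -/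
structure PVar where
  X : Scheme.{0}
  str : X ⟶ Spec (.of ℂ)
  n : ℕ
  emb : X ⟶ PS n
  comm : emb ≫ PSstr n = str
  [int : IsIntegral X]
  [imm : IsClosedImmersion emb]
  [noeth : IsLocallyNoetherian X]

attribute [instance] PVar.int PVar.imm PVar.noeth

/-- The values at `(s, t)` of the binary forms of degree `e` with coefficients `c`. -/
noncomputable def ev {n e : ℕ} (c : Fin (n + 1) × Fin (e + 1) → ℂ) (s t : ℂ) (i : Fin (n + 1)) :
    ℂ :=
  ∑ j : Fin (e + 1), c (i, j) * s ^ (j : ℕ) * t ^ (e - j)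

/-- The morphism `g : ℙ¹ → ℙⁿ` is given by the binary forms with coefficients `c`:
`g (s : t) = (c_0 (s, t) : … : c_n (s, t))`. -/
def IsGiven {n e : ℕ} (g : PS 1 ⟶ PS n) (c : Fin (n + 1) × Fin (e + 1) → ℂ) : Prop :=
  ∀ (s t : ℂ) (x : PS 1), IsPt x ![s, t] → IsPt (pmap g x) (ev c s t)

/-- Coefficient vectors of morphisms `ℙ¹ → V` of degree `e`. -/
structure RatMap (V : PVar) (e : ℕ) where
  coeff : Fin (V.n + 1) × Fin (e + 1) → ℂ
  isMap : ∃ g : PS 1 ⟶ V.X, g ≫ V.str = PSstr 1 ∧ IsGiven (g ≫ V.emb) coeff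

/-- The Zariski topology on the space of morphisms of degree `e`. -/
noncomputable instance (V : PVar) (e : ℕ) : TopologicalSpace (RatMap V e) :=
  TopologicalSpace.induced (fun c => MvPolynomial.pointToPoint (k := ℂ) c.coeff) inferInstance

/-- The space of nonconstant morphisms `ℙ¹ → V`: the disjoint union of the spaces of morphisms of
degree `e + 1`. -/
abbrev Rat (V : PVar) : Type := Σ e : ℕ, RatMap V (e + 1)

/-- `c` is the coefficient vector of the morphism `g`. -/
def IsMor {V : PVar} (g : PS 1 ⟶ V.X) (c : Rat V) : Prop :=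
  g ≫ V.str = PSstr 1 ∧ IsGiven (g ≫ V.emb) c.2.coeff

end GMC
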