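import Pool.Agent.H30.GMC.Geo

/-!
Projective spaces over the complex numbers: integral, proper, locally noetherian.
-/

open AlgebraicGeometry CategoryTheory MvPolynomial

namespace GMC

namespace Inst

theorem X_ne (n : ℕ) : (X 0 : MvPolynomial (Fin (n + 1)) ℂ) ≠ 0 := X_ne_zero 0

theorem X_mem (n : ℕ) : (X 0 : MvPolynomial (Fin (n + 1)) ℂ) ∈ grd n 1 :=
  isHomogeneous_X ℂ 0

/-- the generic point -/
noncomputable def eta (n : ℕ) : ProjectiveSpectrum (grd n) where
  asHomogeneousIdeal := ⊥
  isPrime := by
    rw [HomogeneousIdeal.toIdeal_bot]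
    exact Ideal.isPrime_bot
  not_irrelevant_le := by
    intro hle
    have h1 := HomogeneousIdeal.mem_irrelevant_of_mem (grd n) one_pos (X_mem n)
    have h2 := hle h1
    have h3 : (X 0 : MvPolynomial (Fin (n + 1)) ℂ) ∈
      (⊥ : HomogeneousIdeal (grd n)).toIdeal := h2
    rw [HomogeneousIdeal.toIdeal_bot] at h3
    exact X_ne n (by rwa [Ideal.mem_bot] at h3)

theorem isReduced (n : ℕ) : IsReduced (Proj (grd n)) := by
  have : ∀ x : Proj (grd n), _root_.IsReduced ((Proj (grd n)).presheaf.stalk x) := by
    intro x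
    let y : ProjectiveSpectrum (grd n) := x
    have hdom : IsDomain (Localization y.asHomogeneousIdeal.toIdeal.primeCompl) :=
      IsLocalization.isDomain_localization (Ideal.primeCompl_le_nonZeroDivisors _)
    have hred : _root_.IsReduced
        (HomogeneousLocalization.AtPrime (grd n) y.asHomogeneousIdeal.toIdeal) := by
      constructor
      intro a ha
      obtain ⟨k, hk⟩ := ha
      apply HomogeneousLocalization.val_injective
      have h1 : (a ^ k).val = a.val ^ k := HomogeneousLocalization.val_pow a k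
      rw [hk, HomogeneousLocalization.val_zero] at h1
      rw [HomogeneousLocalization.val_zero]
      exact eq_zero_of_pow_eq_zero h1.symm
    exact isReduced_of_injective (Proj.stalkIso (grd n) x).commRingCatIsoToRingEquiv
      (Proj.stalkIso (grd n) x).commRingCatIsoToRingEquiv.injective
  exact isReduced_of_isReduced_stalk _

theorem mem_of_open (n : ℕ) (U : Set (Proj (grd n))) (hU : IsOpen U) (hne : U.Nonempty) :
    (eta n : Proj (grd n)) ∈ U := by
  obtain ⟨x, hx⟩ := hne
  obtain ⟨V, ⟨W, ⟨f, rfl⟩, rfl⟩, hxf, hfU⟩ :=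
    (Proj.isBasis_basicOpen (grd n)).exists_subset_of_mem_open hx hU
  apply hfU
  show f ∉ (eta n).asHomogeneousIdeal
  have hxf' : x ∈ Proj.basicOpen (grd n) f := hxf
  rw [Proj.mem_basicOpen] at hxf'
  intro hf
  have h1 : f ∈ (⊥ : HomogeneousIdeal (grd n)).toIdeal := hf
  rw [HomogeneousIdeal.toIdeal_bot] at h1
  have h2 : f = 0 := by simpa using h1
  apply hxf'
  rw [h2]
  exact Ideal.zero_mem _

theorem irreducible (n : ℕ) : IrreducibleSpace (Proj (grd n)) := by
  have : PreirreducibleSpace (Proj (grd n)) := by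
    constructor
    intro U V hU hV h1 h2
    have h1' : U.Nonempty := by simpa using h1
    have h2' : V.Nonempty := by simpa using h2
    exact ⟨(eta n : Proj (grd n)), trivial, mem_of_open n U hU h1', mem_of_open n V hV h2'⟩
  exact { toNonempty := ⟨(eta n : Proj (grd n))⟩ }

end Inst

instance (n : ℕ) : IsIntegral (PS n) :=
  have := Inst.isReduced n
  have := Inst.irreducible n
  isIntegral_of_irreducibleSpace_of_isReduced (Proj (grd n))

theorem bij_zero (n : ℕ) : Function.Bijective (algebraMap ℂ (grd n 0)) := by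
  constructor
  · intro a b h
    have h1 : (C a : MvPolynomial (Fin (n + 1)) ℂ) = C b := congrArg Subtype.val h
    exact C_injective _ _ h1
  · rintro ⟨p, hp⟩
    rw [grd, homogeneousSubmodule_zero, Submodule.mem_one] at hp
    obtain ⟨z, rfl⟩ := hp
    exact ⟨z, rfl⟩

instance (n : ℕ) : IsProper (PSstr n) := by
  have : IsScalarTower ℂ (grd n 0) (MvPolynomial (Fin (n + 1)) ℂ) :=
    IsScalarTower.of_algebraMap_eq (R := ℂ) (S := grd n 0)
      (A := MvPolynomial (Fin (n + 1)) ℂ) fun z => rfl
  have : Algebra.FiniteType (grd n 0) (MvPolynomial (Fin (n + 1)) ℂ) :=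
    Algebra.FiniteType.of_restrictScalars_finiteType ℂ _ _
  have h1 : IsProper (Proj.toSpecZero (grd n)) := inferInstance
  have hiso : IsIso (CommRingCat.ofHom (algebraMap ℂ (grd n 0)) :
      CommRingCat.of ℂ ⟶ CommRingCat.of (grd n 0)) := by
    rw [ConcreteCategory.isIso_iff_bijective]
    exact bij_zero n
  have h2 : IsProper (Spec.map (CommRingCat.ofHom (algebraMap ℂ (grd n 0)) :
      CommRingCat.of ℂ ⟶ CommRingCat.of (grd n 0))) := inferInstance
  exact MorphismProperty.comp_mem _ _ _ h1 h2

theorem noeth_of_lft {X : Scheme.{0}} (s : X ⟶ Spec (.of ℂ)) [LocallyOfFiniteType s] :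
    IsLocallyNoetherian X := by
  have : IsNoetherianRing (CommRingCat.of ℂ) := inferInstanceAs (IsNoetherianRing ℂ)
  have : IsLocallyNoetherian (Spec (CommRingCat.of ℂ)) := inferInstance
  exact LocallyOfFiniteType.isLocallyNoetherian s

instance (n : ℕ) : IsLocallyNoetherian (PS n) := noeth_of_lft (PSstr n)

end GMC
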