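import Pool.Agent.H30.GMC.Inst
import Pool.Agent.H30.FCB.Pub

/-!
Definitions for the statement: projective varieties over `ℂ`, terminal and weak Fano varieties,
nef curve classes, `a`-invariants, breaking morphisms, spaces of rational curves, Manin
components.
-/

open AlgebraicGeometry CategoryTheory FCB

namespace GMC

/-- `ℙ¹` as a projective variety. -/
noncomputable def P1 : PVar where
  X := PS 1
  str := PSstr 1
  n := 1
  emb := 𝟙 _
  comm := Category.id_comp _

section Divisors

variable {X Y : Scheme.{0}} [IsIntegral X] [IsLocallyNoetherian X] [IsIntegral Y]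
  [IsLocallyNoetherian Y]

/-- `X` is normal. -/
def IsNormal (X : Scheme.{0}) : Prop := ∀ x : X, IsIntegrallyClosed (X.presheaf.stalk x)

/-- `h` is an equation of the divisor `D` near the point `x`. -/
def IsEq (D : WeilDiv X) (x : X) (h : X.functionField) : Prop :=
  h ≠ 0 ∧ ∀ p : PrimeDiv X, p.1 ⤳ x → D p = Scheme.ord h p.1

/-- Cartier divisors: locally principal Weil divisors. -/
def IsCartier (D : WeilDiv X) : Prop := ∀ x : X, ∃ h, IsEq D x h

/-- Nef divisors, by Kleiman's criterion: `H + n D` is ample for all ample `H` and all `n ≥ 0`. -/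
def IsNef (D : WeilDiv X) : Prop := ∀ H : WeilDiv X, IsAmple H → ∀ n : ℕ, IsAmple (H + n • D)

/-- Big divisors: some positive multiple is the sum of an ample and an effective divisor. -/
def IsBig (D : WeilDiv X) : Prop :=
  ∃ (m : ℕ) (A E : WeilDiv X), 0 < m ∧ IsAmple A ∧ 0 ≤ E ∧ LinEquiv (m • D) (A + E)

/-- The rational function `b` on `Y` is the pull-back of the rational function `a` on `X`, which
is regular at the image of the generic point of `Y`. -/
def IsPull (g : Y ⟶ X) (a : X.functionField) (b : Y.functionField) : Prop :=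
  ∃ s : X.presheaf.stalk (g (genericPoint Y)),
    algebraMap _ X.functionField s = a ∧ (g.stalkMap (genericPoint Y)).hom s = b

/-- The divisor `E` on `Y` is a pull-back of the Cartier divisor `D` on `X`: it is the pull-back of
a divisor `D + div f` whose support does not contain the image of `Y`. -/
def IsPullDiv (g : Y ⟶ X) (D : WeilDiv X) (E : WeilDiv Y) : Prop :=
  ∃ f : X.functionField, f ≠ 0 ∧ ∀ p : PrimeDiv Y, ∃ (h : X.functionField) (h' : Y.functionField),
    h ≠ 0 ∧ (∀ q : PrimeDiv X, q.1 ⤳ g p.1 → D q + Scheme.ord f q.1 = Scheme.ord h q.1) ∧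
      IsPull g h h' ∧ h' ≠ 0 ∧ E p = Scheme.ord h' p.1

/-- The morphism `g` is birational: it maps the generic point to the generic point and induces an
isomorphism of function fields. -/
def IsBirational (g : Y ⟶ X) : Prop :=
  g (genericPoint Y) = genericPoint X ∧ Function.Bijective (g.stalkMap (genericPoint Y)).hom

/-- The morphism `g` is generically finite onto its image: the function field of `Y` is a finite
extension of the residue field of the image of the generic point. -/
def IsGenFinite (g : Y ⟶ X) : Prop := (g.residueFieldMap (genericPoint Y)).hom.Finite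

/-- The degree of a divisor on a curve. -/
noncomputable def deg (E : WeilDiv X) : ℤ := E.sum fun _ n => n

end Divisors

section Forms

variable {X : Scheme.{0}} [IsIntegral X] [IsLocallyNoetherian X]

/-- The `ℂ`-algebra structure on the local rings of a scheme over `ℂ`. -/
noncomputable def stkHom {X : Scheme.{0}} (s : X ⟶ Spec (.of ℂ)) (x : X) :
    ℂ →+* X.presheaf.stalk x :=
  (X.presheaf.germ ⊤ x trivial).hom.comp (secHom s ⊤)

/-- The differentials of `t_1, …, t_n` form a basis of the module of Kähler differentials of the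
`ℂ`-algebra `R`. -/
def IsDiffBasis {R : Type} [CommRing R] (φ : ℂ →+* R) {n : ℕ} (t : Fin n → R) : Prop :=
  letI : Algebra ℂ R := φ.toAlgebra
  ∃ c : Module.Basis (Fin n) R (Ω[R⁄ℂ]), ∀ i, c i = KaehlerDifferential.D ℂ R (t i)

/-- `da_1 ∧ … ∧ da_n = g dt_1 ∧ … ∧ dt_n` over the field `K`, where the `da_i` and the `dt_i` form
bases of the Kähler differentials. -/
def IsJacobian {K : Type} [Field K] (φ : ℂ →+* K) {n : ℕ} (t a : Fin n → K) (g : K) : Prop :=
  letI : Algebra ℂ K := φ.toAlgebra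
  ∃ b c : Module.Basis (Fin n) K (Ω[K⁄ℂ]), (∀ i, b i = KaehlerDifferential.D ℂ K (a i)) ∧
    (∀ i, c i = KaehlerDifferential.D ℂ K (t i)) ∧ g = c.det b

/-- The rational top form `da_1 ∧ … ∧ da_n` is not zero and has order `k` at the prime divisor `p`:
there are local coordinates `t` at `p`, i. e. elements of the local ring at `p` whose differentials
form a basis of its Kähler differentials, such that `da_1 ∧ … ∧ da_n = g dt_1 ∧ … ∧ dt_n` with
`ord_p g = k`. -/
def FormOrd (s : X ⟶ Spec (.of ℂ)) {n : ℕ} (a : Fin n → X.functionField) (p : PrimeDiv X)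
    (k : ℤ) : Prop :=
  ∃ (t : Fin n → X.presheaf.stalk p.1) (g : X.functionField), IsDiffBasis (stkHom s p.1) t ∧
    IsJacobian (ffHom s) (fun i => algebraMap _ X.functionField (t i)) a g ∧
    k = Scheme.ord g p.1

/-- `K` is a canonical divisor: the divisor of a nonzero rational top form `f da_1 ∧ … ∧ da_n`. -/
def IsCan (s : X ⟶ Spec (.of ℂ)) (K : WeilDiv X) : Prop :=
  ∃ (n : ℕ) (a : Fin n → X.functionField) (f : X.functionField), f ≠ 0 ∧
    ∀ p : PrimeDiv X, FormOrd s a p (K p - Scheme.ord f p.1)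

end Forms

/-- `V` is `ℚ`-factorial: normal, and every Weil divisor has a positive multiple which is
Cartier. -/
def IsQFactorial (V : PVar) : Prop :=
  IsNormal V.X ∧ ∀ D : WeilDiv V.X, ∃ m : ℕ, 0 < m ∧ IsCartier (m • D)

/-- `V` is terminal: it is normal, a canonical divisor `K = div (da_1 ∧ … ∧ da_n)` has a Cartier
multiple `m K`, and for every birational morphism `g : W → V` from a normal projective variety and
every exceptional prime divisor `E` of `g` the coefficient of `K_W - g^* K` at `E` is positive: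
`m ord_E (g^* (da_1 ∧ … ∧ da_n)) > ord_E (g^* h)`, where `h` is an equation of `m K` near
`g(E)`. -/
def IsTerminal (V : PVar) : Prop :=
  IsNormal V.X ∧ ∃ (n : ℕ) (a : Fin n → V.X.functionField) (K : WeilDiv V.X) (m : ℕ), 0 < m ∧
    (∀ p, FormOrd V.str a p (K p)) ∧ IsCartier (m • K) ∧
    ∀ (W : PVar) (g : W.X ⟶ V.X), IsNormal W.X → g ≫ V.str = W.str → IsBirational g →
      ∀ E : PrimeDiv W.X, Order.coheight (g E.1) ≠ 1 →
      ∀ (a' : Fin n → W.X.functionField) (k : ℤ) (h : V.X.functionField)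
        (h' : W.X.functionField), (∀ i, IsPull g (a i) (a' i)) → FormOrd W.str a' E k →
        IsEq (m • K) (g E.1) h → IsPull g h h' → Scheme.ord h' E.1 < m * k

/-- `V` is weak Fano: normal, with nef and big anticanonical divisor. -/
def IsWeakFano (V : PVar) : Prop :=
  IsNormal V.X ∧ ∃ K : WeilDiv V.X, IsCan V.str K ∧ IsNef (-K) ∧ IsBig (-K)

/-- The real vector space `N₁(V)`, for `V` `ℚ`-factorial: real valued homomorphisms on the group
of divisors modulo numerical equivalence. -/
def N1 (V : PVar) : Set (WeilDiv V.X →+ ℝ) := {γ | ∀ D ∈ numTriv V.X, γ D = 0}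

/-- The cone `Nef₁(V)` of nef curve classes: the dual of the cone of effective divisors. -/
def Nef1 (V : PVar) : Set (WeilDiv V.X →+ ℝ) := {γ | γ ∈ N1 V ∧ ∀ D, 0 ≤ D → 0 ≤ γ D}

/-- Normal projective curves. -/
def IsCurve (C : PVar) : Prop := IsNormal C.X ∧ ∀ x : C.X, Order.coheight x ≤ 1

/-- `γ` is the class of the morphism `g` from a curve to `V`: it is the homomorphism which maps a
divisor `D` to `deg (g^* (m D)) / m`. -/
def HasClass {V C : PVar} (g : C.X ⟶ V.X) (γ : WeilDiv V.X →+ ℝ) : Prop :=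
  ∀ (D : WeilDiv V.X) (m : ℕ) (E : WeilDiv C.X), 0 < m → IsPullDiv g (m • D) E →
    m * γ D = deg E

/-- Curve classes: integral combinations of classes of curves. -/
def IsCurveClass (V : PVar) (β : WeilDiv V.X →+ ℝ) : Prop :=
  β ∈ AddSubgroup.closure {γ | ∃ (C : PVar) (g : C.X ⟶ V.X), IsCurve C ∧ g ≫ V.str = C.str ∧
    HasClass (V := V) (C := C) g γ}

/-- `V` is uniruled: every closed point lies on a rational curve. -/
def IsUniruled (V : PVar) : Prop :=
  ∀ x : V.X, IsClosed ({x} : Set V.X) → ∃ (c : Rat V) (g : PS 1 ⟶ V.X), IsMor g c ∧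
    x ∈ Set.range g

/-- `φ : Z → Y` is a resolution of singularities: `Z` is smooth (and hence normal) and `φ` is
birational. -/
def IsResolution (Z Y : PVar) (φ : Z.X ⟶ Y.X) : Prop :=
  Smooth Z.str ∧ IsNormal Z.X ∧ φ ≫ Y.str = Z.str ∧ IsBirational φ

/-- `a(Y, f^* L) = a`, where `L` is a `ℚ`-Cartier divisor on `V` and `f : Y → V` a morphism: for a
resolution `φ : Z → Y`, `a` is the infimum of the real numbers `r` such that `K_Z + r φ^* f^* L` is
pseudo-effective, i. e. nonnegative on `Nef₁(Z)`. -/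
def AInv (V : PVar) (L : WeilDiv V.X) (Y : PVar) (f : Y.X ⟶ V.X) (a : EReal) : Prop :=
  ∃ (Z : PVar) (φ : Z.X ⟶ Y.X) (K E : WeilDiv Z.X) (m : ℕ), IsResolution Z Y φ ∧
    IsCan Z.str K ∧ 0 < m ∧ IsPullDiv (φ ≫ f) (m • L) E ∧
      a = sInf {t : EReal | ∃ r : ℝ, t = r ∧ ∀ γ ∈ Nef1 Z, 0 ≤ γ K + r * (γ E / m)}

/-- `f : Y → V` is an `a`-cover with respect to `L`: dominant, not birational, with
`a(Y, f^* L) = a(V, L)`. -/
def IsACover (V : PVar) (L : WeilDiv V.X) (Y : PVar) (f : Y.X ⟶ V.X) : Prop :=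
  f (genericPoint Y.X) = genericPoint V.X ∧ ¬ IsBirational f ∧
    ∃ a, AInv V L Y f a ∧ AInv V L V (𝟙 V.X) a

/-- The Iitaka dimension of `K_Y + f^* L` is positive: on a resolution `φ : Z → Y` some positive
multiple of `K_Z + φ^* f^* L` is linearly equivalent to two different effective divisors. -/
def IitakaPos (V : PVar) (L : WeilDiv V.X) (Y : PVar) (f : Y.X ⟶ V.X) : Prop :=
  ∃ (Z : PVar) (φ : Z.X ⟶ Y.X) (K E : WeilDiv Z.X) (m : ℕ), IsResolution Z Y φ ∧
    IsCan Z.str K ∧ 0 < m ∧ IsPullDiv (φ ≫ f) (m • L) E ∧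
      ∃ (k : ℕ) (D₁ D₂ : WeilDiv Z.X), 0 < k ∧ 0 ≤ D₁ ∧ 0 ≤ D₂ ∧ D₁ ≠ D₂ ∧
        LinEquiv (k • (m • K + E)) D₁ ∧ LinEquiv (k • (m • K + E)) D₂

/-- `γ` lies in `F(Y, f^* L)`: it is a nef curve class on `Y` with
`(K_Y + a(Y, f^* L) f^* L) · γ = 0`. -/
def InFace (V : PVar) (L : WeilDiv V.X) (Y : PVar) (f : Y.X ⟶ V.X) (γ : WeilDiv Y.X →+ ℝ) : Prop :=
  γ ∈ Nef1 Y ∧ ∃ (a : ℝ) (K E : WeilDiv Y.X) (m : ℕ), AInv V L Y f a ∧ IsCan Y.str K ∧ 0 < m ∧
    IsPullDiv f (m • L) E ∧ γ K + a * (γ E / m) = 0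

/-- `f : Y → V` is face contracting with respect to `L`: it is an `a`-cover, `V` and `Y` are
`ℚ`-factorial, terminal and uniruled, and `f_* : F(Y, f^* L) → F(V, L)` is not injective. -/
def IsFaceContracting (V : PVar) (L : WeilDiv V.X) (Y : PVar) (f : Y.X ⟶ V.X) : Prop :=
  IsACover V L Y f ∧ IsQFactorial V ∧ IsTerminal V ∧ IsUniruled V ∧ IsQFactorial Y ∧
    IsTerminal Y ∧ IsUniruled Y ∧ ∃ γ₁ γ₂, InFace V L Y f γ₁ ∧ InFace V L Y f γ₂ ∧ γ₁ ≠ γ₂ ∧
      ∀ (D : WeilDiv V.X) (E : WeilDiv Y.X), IsPullDiv f D E → γ₁ E = γ₂ E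

/-- `f : Y → V` is a breaking morphism: it is generically finite onto its image, and
`a(Y, - f^* K_V) > 1`, or `f` is an `a`-cover with `κ(Y, K_Y - f^* K_V) > 0`, or `f` is face
contracting. -/
def IsBreaking (V Y : PVar) (f : Y.X ⟶ V.X) : Prop :=
  f ≫ V.str = Y.str ∧ IsGenFinite f ∧
    ∃ K : WeilDiv V.X, IsCan V.str K ∧ ((∃ a, AInv V (-K) Y f a ∧ 1 < a) ∨
      (IsACover V (-K) Y f ∧ IitakaPos V (-K) Y f) ∨ IsFaceContracting V (-K) Y f)

/-- Composition with `f : Y → V` gives a dominant rational map from the set `N` of rational curves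
on `Y` to the set `M` of rational curves on `V`: for every nonempty open subset `U` of `N` the
curves in `M` of the form `f ∘ ψ`, `ψ ∈ U`, are dense in `M`. -/
def Dominates {V Y : PVar} (f : Y.X ⟶ V.X) (N : Set (Rat Y)) (M : Set (Rat V)) : Prop :=
  ∀ U : Set (Rat Y), IsOpen U → (U ∩ N).Nonempty →
    M ⊆ closure {c | c ∈ M ∧ ∃ ψ ∈ U ∩ N, ∃ g : PS 1 ⟶ Y.X, IsMor g ψ ∧ IsMor (g ≫ f) c}

/-- The component `M` of the space of rational curves on `V` is accumulating. -/
def IsAccumulating (V : PVar) (M : Set (Rat V)) : Prop :=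
  ∃ (Y : PVar) (f : Y.X ⟶ V.X), IsBreaking V Y f ∧ ∃ N ∈ irreducibleComponents (Rat Y),
    Dominates f N M

/-- The Manin components of class `β`: the irreducible components of the space of rational curves
on `V` which consist of curves of class `β` and are not accumulating. -/
def maninComponents (V : PVar) (β : WeilDiv V.X →+ ℝ) : Set (Set (Rat V)) :=
  {M | M ∈ irreducibleComponents (Rat V) ∧
    (∀ c ∈ M, ∃ g : PS 1 ⟶ V.X, IsMor g c ∧ HasClass (V := V) (C := P1) g β) ∧
    ¬ IsAccumulating V M}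

/-- The conclusion of the conjecture for `V`: there are an integer `c` and a nef curve class `α`
such that there are exactly `c` Manin components of class `β` for every curve class `β` in
`α + Nef₁(V)`. -/
def Conjecture (V : PVar) : Prop :=
  ∃ (c : ℕ) (α : WeilDiv V.X →+ ℝ), α ∈ Nef1 V ∧ ∀ β : WeilDiv V.X →+ ℝ, IsCurveClass V β →
    β - α ∈ Nef1 V → (maninComponents V β).encard = c

/-- The answer to Q1. -/
def Answer : Prop :=
  ∃ V : PVar, IsQFactorial V ∧ IsTerminal V ∧ IsWeakFano V ∧ ¬ Conjecture V ∧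
    ∀ (α : WeilDiv V.X →+ ℝ) (N : ℕ), α ∈ Nef1 V → ∃ β : WeilDiv V.X →+ ℝ, IsCurveClass V β ∧
      β - α ∈ Nef1 V ∧ N ≤ (maninComponents V β).encard

end GMC
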