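import Pool.Agent.H30.GMC.Base

/-!
Statements G: general facts on projective spaces, rational functions, pull-backs, divisors, forms.
-/

open AlgebraicGeometry CategoryTheory FCB MvPolynomial

namespace GMC

/-- PSB: ideals of points of projective space. -/
def S_PSB : Prop :=
  ∀ n : ℕ,
    (∀ x : PS n, (PI x).IsPrime) ∧
    (∀ (x : PS n) (p : MvPolynomial (Fin (n + 1)) ℂ),
      p ∈ PI x ↔ ∀ d, homogeneousComponent d p ∈ PI x) ∧
    (∀ x : PS n, ∃ i, (X i : MvPolynomial (Fin (n + 1)) ℂ) ∉ PI x) ∧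
    (∀ J : Ideal (MvPolynomial (Fin (n + 1)) ℂ), J.IsPrime →
      (∀ p ∈ J, ∀ d, homogeneousComponent d p ∈ J) → (∃ i, X i ∉ J) → ∃ x : PS n, PI x = J) ∧
    (∀ x y : PS n, x ⤳ y ↔ PI x ≤ PI y) ∧
    (∀ x y : PS n, PI x = PI y → x = y)

/-- IPT: closed points of projective space are given by homogeneous coordinates. -/
def S_IPT : Prop :=
  ∀ n : ℕ,
    (∀ v : Fin (n + 1) → ℂ, v ≠ 0 → ∃ x : PS n, IsPt x v) ∧
    (∀ (x : PS n) (v : Fin (n + 1) → ℂ), IsPt x v → v ≠ 0 ∧ IsClosed ({x} : Set (PS n))) ∧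
    (∀ x : PS n, IsClosed ({x} : Set (PS n)) → ∃ v, IsPt x v) ∧
    (∀ (x : PS n) (v w : Fin (n + 1) → ℂ), IsPt x v → IsPt x w → ∃ l : ℂ, l ≠ 0 ∧ w = l • v)

/-- JACO: every nonempty open set contains a closed point. -/
def S_JACO : Prop :=
  ∀ (T : Scheme.{0}) (s : T ⟶ Spec (.of ℂ)) [LocallyOfFiniteType s] (U : Set T), IsOpen U →
    U.Nonempty → ∃ x ∈ U, IsClosed ({x} : Set T)

/-- RATA: existence and equality of rational functions. -/
def S_RATA : Prop :=
  ∀ (T : Scheme.{0}) [IsIntegral T] (n : ℕ) (h : T ⟶ PS n),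
    (∀ (d : ℕ) (A B : MvPolynomial (Fin (n + 1)) ℂ), A ∈ grd n d → B ∈ grd n d →
      B ∉ PI (h (genericPoint T)) → ∃ f, IsRatio h A B f) ∧
    (∀ (A B A' B' : MvPolynomial (Fin (n + 1)) ℂ) (f f' : T.functionField), IsRatio h A B f →
      IsRatio h A' B' f' → (f = f' ↔ A * B' - A' * B ∈ PI (h (genericPoint T)))) ∧
    (∀ (A B : MvPolynomial (Fin (n + 1)) ℂ) (f : T.functionField), IsRatio h A B f →
      (f = 0 ↔ A ∈ PI (h (genericPoint T))))

/-- RATB: sums, products and constants. -/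
def S_RATB : Prop :=
  ∀ (T : Scheme.{0}) [IsIntegral T] (n : ℕ) (h : T ⟶ PS n),
    (∀ (A B A' B' : MvPolynomial (Fin (n + 1)) ℂ) (f f' : T.functionField), IsRatio h A B f →
      IsRatio h A' B' f' →
      IsRatio h (A * A') (B * B') (f * f') ∧ IsRatio h (A * B' + A' * B) (B * B') (f + f')) ∧
    (∀ (d : ℕ) (B : MvPolynomial (Fin (n + 1)) ℂ), B ∈ grd n d → B ∉ PI (h (genericPoint T)) →
      IsRatio h B B 1) ∧
    (∀ s : T ⟶ Spec (.of ℂ), h ≫ PSstr n = s → ∀ z : ℂ, IsRatio h (C z) 1 (ffHom s z))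

/-- RLOC: `A / B` is regular where `B` does not vanish. -/
def S_RLOC : Prop :=
  ∀ (T : Scheme.{0}) [IsIntegral T] (n : ℕ) (h : T ⟶ PS n) (y : T)
    (A B : MvPolynomial (Fin (n + 1)) ℂ) (f : T.functionField), IsRatio h A B f →
    B ∉ PI (h y) → RegAt y f ∧ (UnitAt y f ↔ A ∉ PI (h y))

/-- RGEN: regular functions on a projective variety are fractions. -/
def S_RGEN : Prop :=
  ∀ (V : PVar) (y : V.X) (f : V.X.functionField), RegAt y f →
    ∃ (d : ℕ) (A B : MvPolynomial (Fin (V.n + 1)) ℂ), A ∈ grd V.n d ∧ B ∈ grd V.n d ∧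
      B ∉ V.P y ∧ IsRatio V.emb A B f

/-- PULA: pull-back of rational functions. -/
def S_PULA : Prop :=
  ∀ (X Y : Scheme.{0}) [IsIntegral X] [IsLocallyNoetherian X] [IsIntegral Y]
    [IsLocallyNoetherian Y] (g : Y ⟶ X),
    (∀ a b b', IsPull g a b → IsPull g a b' → b = b') ∧
    (∀ a b a' b', IsPull g a b → IsPull g a' b' →
      IsPull g (a * a') (b * b') ∧ IsPull g (a + a') (b + b')) ∧
    IsPull g 1 1 ∧
    (∀ a b, IsPull g a b → (UnitAt (g (genericPoint Y)) a ↔ b ≠ 0)) ∧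
    (∀ a b, IsPull g a b → b ≠ 0 → IsPull g a⁻¹ b⁻¹) ∧
    (∀ (y : Y) a, RegAt (g y) a → ∃ b, IsPull g a b ∧ RegAt y b ∧ (UnitAt y b ↔ UnitAt (g y) a)) ∧
    (∀ (s : X ⟶ Spec (.of ℂ)) (z : ℂ), IsPull g (ffHom s z) (ffHom (g ≫ s) z))

/-- PULB: pull-backs and compositions. -/
def S_PULB : Prop :=
  ∀ (X Y Z : Scheme.{0}) [IsIntegral X] [IsLocallyNoetherian X] [IsIntegral Y]
    [IsLocallyNoetherian Y] [IsIntegral Z] [IsLocallyNoetherian Z] (g : Y ⟶ X) (k : Z ⟶ Y) a b c,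
    IsPull g a b → (IsPull (k ≫ g) a c → IsPull k b c) ∧
      (k (genericPoint Z) = genericPoint Y → IsPull k b c → IsPull (k ≫ g) a c)

/-- RPUL: pull-back of fractions. -/
def S_RPUL : Prop :=
  ∀ (T T' : Scheme.{0}) [IsIntegral T] [IsLocallyNoetherian T] [IsIntegral T']
    [IsLocallyNoetherian T'] (k : T' ⟶ T) (n : ℕ) (h : T ⟶ PS n)
    (A B : MvPolynomial (Fin (n + 1)) ℂ) (f : T.functionField), IsRatio h A B f →
    B ∉ PI (h (k (genericPoint T'))) → ∃ f', IsRatio (k ≫ h) A B f' ∧ IsPull k f f'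

/-- BIRF: for birational morphisms all rational functions have pull-backs, birational morphisms
can be composed. -/
def S_BIRF : Prop :=
  (∀ (X Y : Scheme.{0}) [IsIntegral X] [IsLocallyNoetherian X] [IsIntegral Y]
    [IsLocallyNoetherian Y] (g : Y ⟶ X), g (genericPoint Y) = genericPoint X →
    ∀ a, ∃ b, IsPull g a b ∧ (a ≠ 0 → b ≠ 0)) ∧
  (∀ (X Y Z : Scheme.{0}) [IsIntegral X] [IsLocallyNoetherian X] [IsIntegral Y]
    [IsLocallyNoetherian Y] [IsIntegral Z] [IsLocallyNoetherian Z] (g : Y ⟶ X) (k : Z ⟶ Y),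
    IsBirational g → IsBirational k → IsBirational (k ≫ g))

/-- VPT: points of a projective variety. -/
def S_VPT : Prop :=
  ∀ V : PVar, (∀ x y : V.X, x ⤳ y ↔ V.P x ≤ V.P y) ∧
    (∀ x : PS V.n, V.I ≤ PI x → ∃ y : V.X, V.emb y = x) ∧
    (∀ x y : V.X, V.P x = V.P y → x = y) ∧
    (∀ x : V.X, IsClosed ({x} : Set V.X) ↔ IsClosed ({V.emb x} : Set (PS V.n)))

/-- EXV: reduced closed subvarieties of projective space. -/
def S_EXV : Prop :=
  ∀ (n : ℕ) (x : PS n), ∃ (X : Scheme.{0}) (emb : X ⟶ PS n) (_ : IsIntegral X),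
    IsClosedImmersion emb ∧ emb (genericPoint X) = x

/-- PVC: projective varieties are compact, their structure morphism is proper, the complement of
a coordinate hyperplane is affine. -/
def S_PVC : Prop :=
  ∀ V : PVar, CompactSpace V.X ∧ IsProper V.str ∧
    ∀ i : Fin (V.n + 1), ∃ U : V.X.Opens, IsAffineOpen U ∧
      ∀ x : V.X, x ∈ U ↔ (X i : MvPolynomial (Fin (V.n + 1)) ℂ) ∉ V.P x

/-- MORA: binary forms without common zeros define a morphism to projective space. -/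
def S_MORA : Prop :=
  ∀ (n e : ℕ) (c : Fin (n + 1) × Fin (e + 1) → ℂ),
    (∀ s t : ℂ, ![s, t] ≠ 0 → ev c s t ≠ 0) →
    ∃ g : PS 1 ⟶ PS n, g ≫ PSstr n = PSstr 1 ∧ IsGiven g c

/-- MORB: a morphism `ℙ¹ → ℙⁿ` which maps closed points to `V` factors through `V`. -/
def S_MORB : Prop :=
  ∀ (V : PVar) (g : PS 1 ⟶ PS V.n),
    (∀ x : PS 1, IsClosed ({x} : Set (PS 1)) → ∃ y : V.X, V.emb y = g x) →
    ∃ g' : PS 1 ⟶ V.X, g' ≫ V.emb = g

/-- SUBA: substitution of binary forms, points. -/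
def S_SUBA : Prop :=
  ∀ (n e : ℕ) (c : Fin (n + 1) × Fin (e + 1) → ℂ) (g : PS 1 ⟶ PS n), g ≫ PSstr n = PSstr 1 →
    IsGiven g c → ∀ (x : PS 1) (d : ℕ), ∀ A ∈ grd n d, A ∈ PI (g x) ↔ aeval (bf c) A ∈ PI x

/-- SUBB: substitution of binary forms, rational functions. -/
def S_SUBB : Prop :=
  ∀ (n e : ℕ) (c : Fin (n + 1) × Fin (e + 1) → ℂ) (g : PS 1 ⟶ PS n), g ≫ PSstr n = PSstr 1 →
    IsGiven g c → ∀ (A B : MvPolynomial (Fin (n + 1)) ℂ) (f : (PS 1).functionField),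
    IsRatio g A B f → IsRatio (𝟙 (PS 1)) (aeval (bf c) A) (aeval (bf c) B) f

/-- ORDV: the order at a prime divisor with integrally closed local ring is a discrete
valuation. -/
def S_ORDV : Prop :=
  ∀ (X : Scheme.{0}) [IsIntegral X] [IsLocallyNoetherian X] (p : PrimeDiv X),
    IsIntegrallyClosed (X.presheaf.stalk p.1) →
    (∀ f : X.functionField, f ≠ 0 → (RegAt p.1 f ↔ 0 ≤ Scheme.ord f p.1)) ∧
    (∀ f : X.functionField, f ≠ 0 → (UnitAt p.1 f ↔ Scheme.ord f p.1 = 0)) ∧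
    (∃ f : X.functionField, f ≠ 0 ∧ Scheme.ord f p.1 = 1)

/-- HARA: a noetherian normal domain is the intersection of its localisations at the prime ideals
of height one. -/
def S_HARA : Prop :=
  ∀ (R : Type) [CommRing R] [IsDomain R] [IsNoetherianRing R] [IsIntegrallyClosed R] (a b : R),
    b ≠ 0 → (∀ P : Ideal R, P.IsPrime → P.height = 1 → ∃ c d : R, d ∉ P ∧ a * d = b * c) →
    b ∣ a

/-- HART: a rational function on a normal scheme without poles is regular. -/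
def S_HART : Prop :=
  ∀ (X : Scheme.{0}) [IsIntegral X] [IsLocallyNoetherian X], IsNormal X →
    ∀ (x : X) (f : X.functionField), f ≠ 0 →
    (∀ p : PrimeDiv X, p.1 ⤳ x → 0 ≤ Scheme.ord f p.1) → RegAt x f

/-- KRUL: a regular function which vanishes at `x` vanishes on a prime divisor through `x`. -/
def S_KRUL : Prop :=
  ∀ (X : Scheme.{0}) [IsIntegral X] [IsLocallyNoetherian X], IsNormal X →
    ∀ (x : X) (f : X.functionField), f ≠ 0 → RegAt x f → ¬ UnitAt x f →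
    ∃ p : PrimeDiv X, p.1 ⤳ x ∧ 0 < Scheme.ord f p.1

/-- FINS: a nonzero rational function has finitely many zeros and poles. -/
def S_FINS : Prop :=
  ∀ (X : Scheme.{0}) [IsIntegral X] [IsLocallyNoetherian X] [CompactSpace X]
    (f : X.functionField), f ≠ 0 → {p : PrimeDiv X | Scheme.ord f p.1 ≠ 0}.Finite

/-- ASUM: sums of ample divisors are ample, and `D` is ample if a positive multiple is. -/
def S_ASUM : Prop :=
  ∀ V : PVar, (∀ D E : WeilDiv V.X, IsAmple D → IsAmple E → IsAmple (D + E)) ∧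
    (∀ (D : WeilDiv V.X) (n : ℕ), 0 < n → IsAmple (n • D) → IsAmple D)

/-- HYPA: divisors of homogeneous polynomials of positive degree are ample. -/
def S_HYPA : Prop :=
  ∀ V : PVar, IsNormal V.X → ∀ (d : ℕ) (A : MvPolynomial (Fin (V.n + 1)) ℂ) (D : WeilDiv V.X),
    0 < d → A ∈ grd V.n d → A ∉ V.I →
    (∀ (p : PrimeDiv V.X) (B : MvPolynomial (Fin (V.n + 1)) ℂ) (f : V.X.functionField),
      B ∉ V.P p.1 → IsRatio V.emb A B f → D p = Scheme.ord f p.1) → IsAmple D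

/-- LINV: curve classes only depend on linear equivalence classes. -/
def S_LINV : Prop :=
  ∀ (V : PVar), ∀ γ ∈ N1 V, ∀ D E : WeilDiv V.X, LinEquiv D E → γ D = γ E

/-- P1C: `ℙ¹` is a curve. -/
def S_P1C : Prop := IsCurve P1

/-- P1D: the divisor of a binary form. -/
def S_P1D : Prop :=
  ∀ (d : ℕ) (A : MvPolynomial (Fin 2) ℂ), A ∈ grd 1 d → A ≠ 0 →
    ∃ E : WeilDiv (PS 1), deg E = d ∧
      ∀ (p : PrimeDiv (PS 1)) (B : MvPolynomial (Fin 2) ℂ) (f : (PS 1).functionField),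
        B ∉ PI p.1 → IsRatio (𝟙 (PS 1)) A B f → E p = Scheme.ord f p.1

/-- P1E: principal divisors on `ℙ¹` have degree zero. -/
def S_P1E : Prop :=
  ∀ f : (PS 1).functionField, f ≠ 0 → ∃ E : WeilDiv (PS 1), (∀ p, E p = Scheme.ord f p.1) ∧
    deg E = 0

/-- FDER: the order of a form in terms of derivations. -/
def S_FDER : Prop :=
  ∀ (X : Scheme.{0}) [IsIntegral X] [IsLocallyNoetherian X] (s : X ⟶ Spec (.of ℂ)) (n : ℕ)
    (a : Fin n → X.functionField) (p : PrimeDiv X) (k : ℤ), FormOrd s a p k →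
    letI : Algebra ℂ X.functionField := (ffHom s).toAlgebra
    ∃ δ : Fin n → Derivation ℂ X.functionField X.functionField,
      (∀ i f, RegAt p.1 f → RegAt p.1 (δ i f)) ∧
      Matrix.det (Matrix.of fun i j => δ j (a i)) ≠ 0 ∧
      k = Scheme.ord (Matrix.det (Matrix.of fun i j => δ j (a i))) p.1

/-- FUNI: the order of a form is well defined. -/
def S_FUNI : Prop :=
  ∀ (X : Scheme.{0}) [IsIntegral X] [IsLocallyNoetherian X] (s : X ⟶ Spec (.of ℂ)) (n : ℕ)
    (a : Fin n → X.functionField) (p : PrimeDiv X) (k k' : ℤ), FormOrd s a p k →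
    FormOrd s a p k' → k = k'

/-- CANC: every basis of differentials can be used to compute the canonical class. -/
def S_CANC : Prop :=
  ∀ (Z : PVar) (K : WeilDiv Z.X), IsCan Z.str K → ∀ (n : ℕ) (a : Fin n → Z.X.functionField),
    IsDiffBasis (ffHom Z.str) a → ∃ K' : WeilDiv Z.X, (∀ p, FormOrd Z.str a p (K' p)) ∧ LinEquiv K K'

/-- BPUL: pull-back of a basis of differentials under a birational morphism. -/
def S_BPUL : Prop :=
  ∀ (X Y : Scheme.{0}) [IsIntegral X] [IsLocallyNoetherian X] [IsIntegral Y]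
    [IsLocallyNoetherian Y] (s : X ⟶ Spec (.of ℂ)) (g : Y ⟶ X) (n : ℕ)
    (a : Fin n → X.functionField) (b : Fin n → Y.functionField), IsBirational g →
    IsDiffBasis (ffHom s) a → (∀ i, IsPull g (a i) (b i)) → IsDiffBasis (ffHom (g ≫ s)) b

end GMC
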