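import Pool.Agent.H30.GMC.StX
import Pool.Agent.H22.GMC.Components

/-!
Statements T (terminality, `a`-invariants), C (curve classes), B (the link with the spaces of
coefficient vectors).
-/

open AlgebraicGeometry CategoryTheory FCB MvPolynomial
open Pool.Agent.H22.GMC (Coord Maps Source stratum)

namespace GMC

/-! ### Terminality and the `a`-invariant -/

/-- EQUN: two equations of a divisor differ by a unit; pull-backs of two equations have the same
order. -/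
def S_EQUN : Prop :=
  (∀ (X : Scheme.{0}) [IsIntegral X] [IsLocallyNoetherian X], IsNormal X →
    ∀ (D : WeilDiv X) (x : X) (h h' : X.functionField), IsEq D x h → IsEq D x h' →
      UnitAt x (h * h'⁻¹)) ∧
  (∀ (X Y : Scheme.{0}) [IsIntegral X] [IsLocallyNoetherian X] [IsIntegral Y]
    [IsLocallyNoetherian Y] (g : Y ⟶ X), IsNormal X → ∀ (D : WeilDiv X) (p : PrimeDiv Y)
    (h h' : X.functionField) (b b' : Y.functionField),
    IsIntegrallyClosed (Y.presheaf.stalk p.1) → IsEq D (g p.1) h → IsEq D (g p.1) h' →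
    IsPull g h b → IsPull g h' b' → b ≠ 0 → b' ≠ 0 → Scheme.ord b p.1 = Scheme.ord b' p.1)

/-- LOCZ: the local estimate: `2 ord_E (g^* ω) + 5 ord_E (g^* (x_0² / q)) ≥ 0`, with strict
inequality for exceptional divisors. -/
def S_LOCZ : Prop :=
  ∀ (M : XData) (ξ : Fin 3 → M.X.functionField), M.IsXi ξ →
    ∀ (W : PVar) (g : W.X ⟶ M.X) (E : PrimeDiv W.X) (ξ' : Fin 3 → W.X.functionField) (k : ℤ)
      (q : Fin 4) (u' : W.X.functionField), g ≫ M.str = W.str → IsBirational g →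
      IsIntegrallyClosed (W.X.presheaf.stalk E.1) → (∀ i, IsPull g (ξ i) (ξ' i)) →
      FormOrd W.str ξ' E k → Qc q ∉ M.P (g E.1) → IsPull g (wq ξ q)⁻¹ u' →
      0 ≤ 2 * k + 5 * Scheme.ord u' E.1 ∧
        (Order.coheight (g E.1) ≠ 1 → 0 < 2 * k + 5 * Scheme.ord u' E.1)

/-- TERM: the variety is terminal. -/
def S_TERM : Prop := ∀ M : XData, IsTerminal M.V

/-- QFAC: the variety is `ℚ`-factorial. -/
def S_QFAC : Prop := ∀ M : XData, IsQFactorial M.V

/-- WFAN: the variety is weak Fano. -/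
def S_WFAN : Prop := ∀ M : XData, IsWeakFano M.V

/-- EFFZ: on a birational model `Z` the divisor `2 (m K_Z - ψ^* (m K))` is linearly equivalent to
an effective divisor. -/
def S_EFFZ : Prop :=
  ∀ (M : XData) (Z : PVar) (ψ : Z.X ⟶ M.X) (KZ : WeilDiv Z.X) (KX : WeilDiv M.X) (m : ℕ)
    (E : WeilDiv Z.X), IsNormal Z.X → ψ ≫ M.str = Z.str → IsBirational ψ → IsCan Z.str KZ →
    IsCan M.str KX → 0 < m → IsPullDiv ψ (m • (-KX)) E →
    ∃ G : WeilDiv Z.X, 0 ≤ G ∧ LinEquiv (2 • (m • KZ + E)) G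

/-- NBIR: breaking morphisms to the variety are not birational. -/
def S_NBIR : Prop :=
  ∀ (M : XData) (Y : PVar) (f : Y.X ⟶ M.X), IsBreaking M.V Y f → ¬ IsBirational f

/-! ### Curve classes -/

/-- The real multiple `a · dg` of the degree homomorphism. -/
noncomputable def bet {X : Scheme.{0}} (dg : WeilDiv X →+ ℤ) (a : ℝ) : WeilDiv X →+ ℝ :=
  (AddMonoidHom.mulLeft a).comp ((Int.castAddHom ℝ).comp dg)

/-- NEFA: nef curve classes are nonnegative multiples of the degree. -/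
def S_NEFA : Prop :=
  ∀ (M : XData) (D : PrimeDiv M.X) (dg : WeilDiv M.X →+ ℤ), M.IsD D → M.IsDg D dg →
    ∀ α ∈ Nef1 M.V, ∃ a : ℝ, 0 ≤ a ∧ α = bet dg a

/-- NEFB: nonnegative multiples of the degree are nef curve classes. -/
def S_NEFB : Prop :=
  ∀ (M : XData) (D : PrimeDiv M.X) (dg : WeilDiv M.X →+ ℤ), M.IsD D → M.IsDg D dg →
    ∀ a : ℝ, 0 ≤ a → bet dg a ∈ Nef1 M.V

/-- HCLS: the class of a morphism of degree `e`. -/
def S_HCLS : Prop :=
  ∀ (M : XData) (D : PrimeDiv M.X) (dg : WeilDiv M.X →+ ℤ), M.IsD D → M.IsDg D dg →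
    ∀ (e : ℕ) (c : Fin 10 × Fin (e + 1) → ℂ) (g : PS 1 ⟶ M.X), g ≫ M.str = PSstr 1 →
    IsGiven (g ≫ M.emb) c → HasClass (V := M.V) (C := P1) g (bet dg (e / 2))

/-- CCLS: the multiples of half the degree are curve classes. -/
def S_CCLS : Prop :=
  ∀ (M : XData) (D : PrimeDiv M.X) (dg : WeilDiv M.X →+ ℤ), M.IsD D → M.IsDg D dg →
    ∀ e : ℕ, 1 ≤ e → IsCurveClass M.V (bet dg (e / 2))

/-! ### The link with the spaces of coefficient vectors -/

/-- RATX: coefficient vectors of morphisms from `ℙ¹` to the variety. -/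
def S_RATX : Prop :=
  ∀ (M : XData) (e : ℕ) (c : Fin 10 × Fin (e + 1) → ℂ),
    (∃ g : PS 1 ⟶ M.X, g ≫ M.str = PSstr 1 ∧ IsGiven (g ≫ M.emb) c) ↔
      Pool.Agent.H22.GMC.IsMap (n := 2) (fun p : Coord 2 × Fin (e + 1) => c (eI.symm p.1, p.2))

/-- `Φ` is the comparison of the two spaces of coefficient vectors. -/
def IsPhi {M : XData} {e : ℕ} (Φ : RatMap M.V e ≃ₜ Maps ℂ 2 e) : Prop :=
  ∀ (c : RatMap M.V e) (a : Coord 2) (j : Fin (e + 1)),
    (Φ c).coeffs (a, j) = c.coeff (eI.symm a, j)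

/-- HOME: the two spaces of coefficient vectors are homeomorphic. -/
def S_HOME : Prop := ∀ (M : XData) (e : ℕ), ∃ Φ : RatMap M.V e ≃ₜ Maps ℂ 2 e, IsPhi Φ

/-- SIGC: components of the space of morphisms of degree `e + 1` are components of the space of
all nonconstant morphisms. -/
def S_SIGC : Prop :=
  ∀ (V : PVar) (e : ℕ), ∀ C ∈ irreducibleComponents (RatMap V (e + 1)),
    ((fun c => (⟨e, c⟩ : Rat V)) '' C) ∈ irreducibleComponents (Rat V)

/-- REPF: a morphism from a projective variety to projective space is given by forms of the same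
degree, not all of them zero at a given point. -/
def S_REPF : Prop :=
  ∀ (Y : PVar) (n : ℕ) (h : Y.X ⟶ PS n), h ≫ PSstr n = Y.str → ∀ y : Y.X,
    ∃ (d : ℕ) (F : Fin (n + 1) → MvPolynomial (Fin (Y.n + 1)) ℂ), (∀ i, F i ∈ grd Y.n d) ∧
      (∃ i, F i ∉ Y.P y) ∧
      (∀ k, ∀ G ∈ grd n k, G ∈ PI (h (genericPoint Y.X)) ↔ aeval F G ∈ Y.I) ∧
      (∀ A B g, IsRatio h A B g → IsRatio Y.emb (aeval F A) (aeval F B) g) ∧
      (∀ (z : Y.X) (v : Fin (Y.n + 1) → ℂ) (w : Fin (n + 1) → ℂ), IsPt (Y.emb z) v →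
        IsPt (h z) w → ∃ l : ℂ, ∀ i, eval v (F i) = l * w i)

/-- THET: the function field of a projective variety inside the field of fractions of its
homogeneous coordinate ring. -/
def S_THET : Prop :=
  ∀ V : PVar, ∃ θ : V.X.functionField →+* FractionRing (MvPolynomial (Fin (V.n + 1)) ℂ ⧸ V.I),
    ∀ (A B : MvPolynomial (Fin (V.n + 1)) ℂ) (f : V.X.functionField), IsRatio V.emb A B f →
      θ f * algebraMap _ _ (Ideal.Quotient.mk V.I B) = algebraMap _ _ (Ideal.Quotient.mk V.I A)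

/-- Forms which represent a morphism `f` from a projective variety `Y` to `ℙ(1,1,1,2)`. -/
structure RepX (M : XData) (Y : PVar) (f : Y.X ⟶ M.X) where
  d : ℕ
  F : Coord 2 → MvPolynomial (Fin (Y.n + 1)) ℂ
  hom : ∀ a, (F a).IsHomogeneous d
  symm : ∀ i j, F (some (i, j)) - F (some (j, i)) ∈ Y.I
  rank : ∀ i j i' j', F (some (i, j)) * F (some (i', j')) -
    F (some (i, j')) * F (some (i', j)) ∈ Y.I
  ne : ∃ a, F a ∉ Y.I
  vanish : ∀ k, ∀ G ∈ grd 9 k,
    G ∈ M.P (f (genericPoint Y.X)) ↔ aeval (fun i => F (eI i)) G ∈ Y.I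
  ratio : ∀ A B g, IsRatio (f ≫ M.emb) A B g →
    IsRatio Y.emb (aeval (fun i => F (eI i)) A) (aeval (fun i => F (eI i)) B) g
  pt : ∀ (z : Y.X) (v : Fin (Y.n + 1) → ℂ) (w : Fin 10 → ℂ), IsPt (Y.emb z) v →
    IsPt (M.emb (f z)) w → ∃ l : ℂ, ∀ i, eval v (F (eI i)) = l * w i

/-- The source attached to a representation. -/
noncomputable def RepX.src {M : XData} {Y : PVar} {f : Y.X ⟶ M.X} (R : RepX M Y f) (hP : S_PSB) :
    Source ℂ 2 where
  r := Y.n
  I := Y.I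
  isPrime := (hP Y.n).1 _
  homog := fun p hp => ((hP Y.n).2.1 _ p).1 hp
  d := R.d
  F := R.F
  F_homog := R.hom
  F_symm := R.symm
  F_rank := R.rank
  F_ne := R.ne

/-- REPX: morphisms to `ℙ(1,1,1,2)` are given by forms. -/
def S_REPX : Prop :=
  ∀ (M : XData) (Y : PVar) (f : Y.X ⟶ M.X), f ≫ M.str = Y.str → ∀ y : Y.X,
    ∃ R : RepX M Y f, ∃ a, R.F a ∉ Y.P y

/-- GFIN: morphisms generically finite onto their image. -/
def S_GFIN : Prop :=
  ∀ (hP : S_PSB) (M : XData) (Y : PVar) (f : Y.X ⟶ M.X) (R : RepX M Y f), f ≫ M.str = Y.str →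
    IsGenFinite f → (R.src hP).GenericallyFinite

/-- BIRS: birational representations come from birational morphisms. -/
def S_BIRS : Prop :=
  ∀ (hP : S_PSB) (M : XData) (Y : PVar) (f : Y.X ⟶ M.X) (R : RepX M Y f), f ≫ M.str = Y.str →
    (R.src hP).Birational → IsBirational f

/-- LIFT: compositions of rational curves with `f`. -/
def S_LIFT : Prop :=
  ∀ (hP : S_PSB) (M : XData) (Y : PVar) (f : Y.X ⟶ M.X) (R : RepX M Y f), f ≫ M.str = Y.str →
    ∀ (e' : ℕ) (ψ : Fin (Y.n + 1) × Fin (e' + 1) → ℂ) (g : PS 1 ⟶ Y.X), g ≫ Y.str = PSstr 1 →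
    IsGiven (g ≫ Y.emb) ψ → (∃ a, aeval (bf ψ) (R.F a) ≠ 0) →
    ∀ (e : ℕ) (c : Maps ℂ 2 e), IsGiven (g ≫ f ≫ M.emb) (fun p => c.coeffs (eI p.1, p.2)) →
    (R.src hP).Lifts e' c

/-- OPNE: the curves on which the representation does not vanish identically contain an open
neighbourhood of a given curve. -/
def S_OPNE : Prop :=
  ∀ (M : XData) (Y : PVar) (f : Y.X ⟶ M.X) (e' : ℕ) (ψ₀ : RatMap Y e'),
    f ≫ M.str = Y.str → ∃ R : RepX M Y f, ∃ U : Set (RatMap Y e'), IsOpen U ∧ ψ₀ ∈ U ∧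
      ∀ ψ ∈ U, ∃ a, aeval (bf ψ.coeff) (R.F a) ≠ 0

/-- The component with index `m` of the space of rational curves of degree `e + 1`. -/
def comp {M : XData} {e : ℕ} (Φ : RatMap M.V (e + 1) ≃ₜ Maps ℂ 2 (e + 1)) (m : ℕ) :
    Set (Rat M.V) :=
  (fun c => (⟨e, c⟩ : Rat M.V)) '' (Φ ⁻¹' closure (stratum ℂ 2 (e + 1) m))

/-- DOMI: the components of positive index are not accumulating. -/
def S_DOMI : Prop :=
  ∀ (M : XData) (e m : ℕ) (Φ : RatMap M.V (e + 1) ≃ₜ Maps ℂ 2 (e + 1)), IsPhi Φ → 1 ≤ m →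
    2 * m ≤ e + 1 → ¬ IsAccumulating M.V (comp Φ m)

end GMC
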