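import Pool.Agent.H30.GMC.StG
import Pool.Agent.H22.GMC.NotDominated

/-!
Statements L (local algebra) and X (the variety `ℙ(1,1,1,2)`).
-/

open AlgebraicGeometry CategoryTheory FCB MvPolynomial
open Pool.Agent.H22.GMC (Coord)

namespace GMC

/-! ### Local algebra -/

/-- JACC: the Jacobian criterion at prime ideals of height at least two. -/
def S_JACC : Prop :=
  ∀ p : Ideal (MvPolynomial (Fin 3) ℂ), p.IsPrime → 2 ≤ p.height →
    ∃ f₁ ∈ p, ∃ f₂ ∈ p, ∃ i : Fin 3,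
      Matrix.det (Matrix.of ![fun j => pderiv j f₁, fun j => pderiv j f₂, Pi.single i 1]) ∉ p

/-- LOCO: coordinates regular at a divisor: the Jacobian determinant is regular, and it vanishes
if the center has codimension at least two. -/
def S_LOCO : Prop :=
  ∀ (K : Type) [Field K] [Algebra ℂ K] (O : Subring K) (v : K → ℤ), IsDV O v →
    (∀ z : ℂ, algebraMap ℂ K z ∈ O) → ∀ δ : Fin 3 → Derivation ℂ K K,
    (∀ j, ∀ f ∈ O, δ j f ∈ O) → ∀ a : Fin 3 → K, (∀ i, a i ∈ O) → Jac δ a ≠ 0 →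
    0 ≤ v (Jac δ a) ∧
    ∀ p : Ideal (MvPolynomial (Fin 3) ℂ), p.IsPrime →
      (∀ F, F ∈ p ↔ (aeval a F = 0 ∨ 0 < v (aeval a F))) → 2 ≤ p.height → 1 ≤ v (Jac δ a)

/-- JCHG: the Jacobian determinant in other charts. -/
def S_JCHG : Prop :=
  ∀ (K : Type) [Field K] [Algebra ℂ K] (δ : Fin 3 → Derivation ℂ K K) (a : Fin 3 → K),
    (a 0 ≠ 0 → Jac δ ![(a 0)⁻¹, a 1 * (a 0)⁻¹, a 2 * (a 0)⁻¹ ^ 2] = -(a 0)⁻¹ ^ 5 * Jac δ a) ∧
    (a 1 ≠ 0 → Jac δ ![(a 1)⁻¹, a 0 * (a 1)⁻¹, a 2 * (a 1)⁻¹ ^ 2] = (a 1)⁻¹ ^ 5 * Jac δ a) ∧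
    (a 2 ≠ 0 → Jac δ ![a 0, a 1, (a 2)⁻¹] = -(a 2)⁻¹ ^ 2 * Jac δ a)

/-- LOCS: the estimate at the singular point. -/
def S_LOCS : Prop :=
  ∀ (K : Type) [Field K] [Algebra ℂ K] (O : Subring K) (v : K → ℤ), IsDV O v →
    (∀ z : ℂ, algebraMap ℂ K z ∈ O) → ∀ δ : Fin 3 → Derivation ℂ K K,
    (∀ j, ∀ f ∈ O, δ j f ∈ O) → ∀ a : Fin 3 → K, (∀ i, a i ≠ 0) → Jac δ a ≠ 0 →
    v (a 2) < 0 → v (a 2) < 2 * v (a 0) → v (a 2) < 2 * v (a 1) →
    5 * v (a 2) < 2 * v (Jac δ a)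

/-! ### The variety -/

/-- The ambient coordinates: `0, …, 8` are the matrix entries, `9` is the extra coordinate. -/
def eI : Fin 10 ≃ Coord 2 :=
  (finSuccEquivLast (n := 9)).trans (Equiv.optionCongr (finProdFinEquiv (m := 3) (n := 3)).symm)

/-- The quadratic monomials `x_i x_j` and `w` in the homogeneous coordinates
`x_0, x_1, x_2, w` of `ℙ(1,1,1,2)`. -/
noncomputable def mon : Coord 2 → MvPolynomial (Fin 4) ℂ
  | none => X 3
  | some (i, j) => X i.castSucc * X j.castSucc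

/-- The homomorphism of homogeneous coordinate rings. -/
noncomputable def rho : MvPolynomial (Fin 10) ℂ →ₐ[ℂ] MvPolynomial (Fin 4) ℂ :=
  aeval fun k => mon (eI k)

/-- The weights of the homogeneous coordinates of `ℙ(1,1,1,2)`. -/
def wts : Fin 4 → ℕ := ![1, 1, 1, 2]

/-- The homogeneous ideal of `ℙ(1,1,1,2)` in `ℙ⁹`. -/
noncomputable def IX : Ideal (MvPolynomial (Fin 10) ℂ) := RingHom.ker rho

/-- The ambient coordinate with a given name. -/
noncomputable def Q (a : Coord 2) : MvPolynomial (Fin 10) ℂ := X (eI.symm a)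

/-- The coordinates `x_0², x_1², x_2², w`. -/
noncomputable def Qc : Fin 4 → MvPolynomial (Fin 10) ℂ :=
  ![Q (some (0, 0)), Q (some (1, 1)), Q (some (2, 2)), Q none]

/-- A scheme embedded in `ℙ⁹` as the integral subscheme with homogeneous ideal `IX`. -/
structure XData where
  X : Scheme.{0}
  emb : X ⟶ PS 9
  [int : IsIntegral X]
  [imm : IsClosedImmersion emb]
  [noeth : IsLocallyNoetherian X]
  gen : PI (emb (genericPoint X)) = IX

attribute [instance] XData.int XData.imm XData.noeth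

namespace XData

variable (M : XData)

/-- The structure morphism. -/
noncomputable def str : M.X ⟶ Spec (.of ℂ) := M.emb ≫ PSstr 9

/-- The variety `ℙ(1,1,1,2)`. -/
noncomputable abbrev V : PVar where
  X := M.X
  str := M.str
  n := 9
  emb := M.emb
  comm := rfl

/-- The ideal of a point. -/
noncomputable def P (x : M.X) : Ideal (MvPolynomial (Fin 10) ℂ) := PI (M.emb x)

/-- `ξ = (x_1 / x_0, x_2 / x_0, w / x_0²)`. -/
structure IsXi (ξ : Fin 3 → M.X.functionField) : Prop where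
  r0 : IsRatio M.emb (Q (some (0, 1))) (Q (some (0, 0))) (ξ 0)
  r1 : IsRatio M.emb (Q (some (0, 2))) (Q (some (0, 0))) (ξ 1)
  r2 : IsRatio M.emb (Q none) (Q (some (0, 0))) (ξ 2)

end XData

/-- The coordinates on the three smooth charts in terms of those of the first one. -/
def xi {K : Type} [Field K] (ξ : Fin 3 → K) (i : Fin 3) : Fin 3 → K :=
  match i with
  | 0 => ξ
  | 1 => ![(ξ 0)⁻¹, ξ 1 * (ξ 0)⁻¹, ξ 2 * (ξ 0)⁻¹ ^ 2]
  | 2 => ![(ξ 1)⁻¹, ξ 0 * (ξ 1)⁻¹, ξ 2 * (ξ 1)⁻¹ ^ 2]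

/-- The functions `q / x_0²`, `q = x_0², x_1², x_2², w`. -/
def wq {K : Type} [Field K] (ξ : Fin 3 → K) (q : Fin 4) : K := ![1, ξ 0 ^ 2, ξ 1 ^ 2, ξ 2] q

/-- The homogeneous coordinates `x_0, x_1, x_2, w` in terms of the coordinates of the chart `i`. -/
noncomputable def hc (i : Fin 3) : Fin 4 → MvPolynomial (Fin 3) ℂ :=
  match i with
  | 0 => ![1, X 0, X 1, X 2]
  | 1 => ![X 0, 1, X 1, X 2]
  | 2 => ![X 0, X 1, 1, X 2]

/-- Dehomogenisation on the chart `i`. -/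
noncomputable def dh (i : Fin 3) : MvPolynomial (Fin 10) ℂ →ₐ[ℂ] MvPolynomial (Fin 3) ℂ :=
  (aeval (hc i)).comp rho

/-- The indices of the three smooth charts among the four charts. -/
def ch (i : Fin 3) : Fin 4 := i.castSucc

/-- XIDL: the ideal `IX` is prime and homogeneous, and does not contain all coordinates;
`rho` multiplies degrees by two and is surjective in even degrees. -/
def S_XIDL : Prop :=
  IX.IsPrime ∧ (∀ p ∈ IX, ∀ d, homogeneousComponent d p ∈ IX) ∧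
    (∃ i, (X i : MvPolynomial (Fin 10) ℂ) ∉ IX) ∧
    (∀ d, ∀ p ∈ grd 9 d, IsWeightedHomogeneous wts (rho p) (2 * d)) ∧
    (∀ d, ∀ r, IsWeightedHomogeneous wts r (2 * d) → ∃ p ∈ grd 9 d, rho p = r)

/-- XEX: the variety exists. -/
def S_XEX : Prop := Nonempty XData

/-- XCOV: the four charts cover. -/
def S_XCOV : Prop := ∀ (M : XData) (x : M.X), ∃ q : Fin 4, Qc q ∉ M.P x

/-- XTHE: the function field as a subfield of the field of fractions of `ℂ[x_0, x_1, x_2, w]`. -/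
def S_XTHE : Prop :=
  ∀ M : XData, ∃ θ : M.X.functionField →+* FractionRing (MvPolynomial (Fin 4) ℂ),
    ∀ (A B : MvPolynomial (Fin 10) ℂ) (f : M.X.functionField), IsRatio M.emb A B f →
      θ f * algebraMap _ _ (rho B) = algebraMap _ _ (rho A)

/-- XDEH: fractions with denominator a power of `x_i²` are polynomials in the coordinates of the
chart `i`. -/
def S_XDEH : Prop :=
  ∀ (M : XData) (ξ : Fin 3 → M.X.functionField), M.IsXi ξ →
    letI : Algebra ℂ M.X.functionField := (ffHom M.str).toAlgebra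
    ∀ (i : Fin 3), (∀ (d : ℕ), ∀ A ∈ grd 9 d,
        IsRatio M.emb A (Qc (ch i) ^ d) (aeval (xi ξ i) (dh i A))) ∧
      (∀ F : MvPolynomial (Fin 3) ℂ, ∃ (d : ℕ), ∃ A ∈ grd 9 d, dh i A = F)

/-- XIEX: the functions `ξ` exist, are nonzero and algebraically independent, and generate the
function field. -/
def S_XIEX : Prop :=
  ∀ M : XData, (∃ ξ, M.IsXi ξ) ∧ ∀ ξ, M.IsXi ξ →
    letI : Algebra ℂ M.X.functionField := (ffHom M.str).toAlgebra
    (∀ i, ξ i ≠ 0) ∧ (∀ i, ∀ F : MvPolynomial (Fin 3) ℂ, aeval (xi ξ i) F = 0 → F = 0) ∧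
      ∀ f : M.X.functionField, ∃ F G : MvPolynomial (Fin 3) ℂ, G ≠ 0 ∧
        f * aeval ξ G = aeval ξ F

/-- XUQI: the quotients of `x_0², x_1², x_2², w`. -/
def S_XUQI : Prop :=
  ∀ (M : XData) (ξ : Fin 3 → M.X.functionField), M.IsXi ξ → ∀ j q : Fin 4,
    IsRatio M.emb (Qc j) (Qc q) (wq ξ j / wq ξ q)

/-- XUQR: the quotients `j / q` are regular on the chart `q`, and invertible where `j` does not
vanish. -/
def S_XUQR : Prop :=
  ∀ (M : XData) (ξ : Fin 3 → M.X.functionField), M.IsXi ξ → ∀ (j q : Fin 4) (x : M.X),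
    Qc q ∉ M.P x → RegAt x (wq ξ j / wq ξ q) ∧ (UnitAt x (wq ξ j / wq ξ q) ↔ Qc j ∉ M.P x)

/-- XCHA: regular functions at a point of the chart `i`. -/
def S_XCHA : Prop :=
  ∀ (M : XData) (ξ : Fin 3 → M.X.functionField), M.IsXi ξ →
    letI : Algebra ℂ M.X.functionField := (ffHom M.str).toAlgebra
    ∀ (i : Fin 3) (x : M.X), Qc (ch i) ∉ M.P x →
      (∀ F : MvPolynomial (Fin 3) ℂ, RegAt x (aeval (xi ξ i) F)) ∧
      ∀ f : M.X.functionField, RegAt x f → ∃ F G : MvPolynomial (Fin 3) ℂ,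
        UnitAt x (aeval (xi ξ i) G) ∧ f * aeval (xi ξ i) G = aeval (xi ξ i) F

/-- The prime ideal of `ℂ[ξ]` of a point `x` of the chart `i`. -/
def IsPr {T : Scheme.{0}} [IsIntegral T] (s : T ⟶ Spec (.of ℂ)) (a : Fin 3 → T.functionField)
    (x : T) (p : Ideal (MvPolynomial (Fin 3) ℂ)) : Prop :=
  letI : Algebra ℂ T.functionField := (ffHom s).toAlgebra
  ∀ F : MvPolynomial (Fin 3) ℂ, F ∈ p ↔ ¬ UnitAt x (aeval a F)

/-- XPDH: homogeneous polynomials in the ideal of a point of the chart `i`. -/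
def S_XPDH : Prop :=
  ∀ (M : XData) (ξ : Fin 3 → M.X.functionField), M.IsXi ξ → ∀ (i : Fin 3) (x : M.X)
    (p : Ideal (MvPolynomial (Fin 3) ℂ)), Qc (ch i) ∉ M.P x → IsPr M.str (xi ξ i) x p →
    ∀ d, ∀ A ∈ grd 9 d, A ∈ M.P x ↔ dh i A ∈ p

/-- XPRI: the prime ideal of a point exists; its height is the codimension of the point. -/
def S_XPRI : Prop :=
  ∀ (M : XData) (ξ : Fin 3 → M.X.functionField), M.IsXi ξ → ∀ (i : Fin 3) (x : M.X),
    Qc (ch i) ∉ M.P x → ∃ p : Ideal (MvPolynomial (Fin 3) ℂ), p.IsPrime ∧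
      IsPr M.str (xi ξ i) x p ∧ p.height = Order.coheight x

/-- XPRE: every prime ideal is the prime ideal of a point of the chart `i`. -/
def S_XPRE : Prop :=
  ∀ (M : XData) (ξ : Fin 3 → M.X.functionField), M.IsXi ξ → ∀ (i : Fin 3)
    (p : Ideal (MvPolynomial (Fin 3) ℂ)), p.IsPrime → ∃ x : M.X, Qc (ch i) ∉ M.P x ∧
      IsPr M.str (xi ξ i) x p

/-- XSPE: specialisation in the chart `i`. -/
def S_XSPE : Prop :=
  ∀ (M : XData) (ξ : Fin 3 → M.X.functionField), M.IsXi ξ → ∀ (i : Fin 3) (x y : M.X)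
    (p q : Ideal (MvPolynomial (Fin 3) ℂ)), Qc (ch i) ∉ M.P x → Qc (ch i) ∉ M.P y →
    IsPr M.str (xi ξ i) x p → IsPr M.str (xi ξ i) y q → (x ⤳ y ↔ p ≤ q)

/-- XNOR: the variety is normal. -/
def S_XNOR : Prop := ∀ M : XData, IsNormal M.X

/-- XSNG: the singular point has codimension different from one. -/
def S_XSNG : Prop :=
  ∀ (M : XData) (x : M.X), Qc 0 ∈ M.P x → Qc 1 ∈ M.P x → Qc 2 ∈ M.P x → Order.coheight x ≠ 1

/-- `D` is the prime divisor `x_0 = 0`. -/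
def XData.IsD (M : XData) (D : PrimeDiv M.X) : Prop :=
  Qc 0 ∈ M.P D.1 ∧ Qc 1 ∉ M.P D.1 ∧ Qc 2 ∉ M.P D.1 ∧ Qc 3 ∉ M.P D.1 ∧
    ∀ p : PrimeDiv M.X, Qc 0 ∈ M.P p.1 → p = D

/-- XDEX: the prime divisor `x_0 = 0`. -/
def S_XDEX : Prop := ∀ M : XData, ∃ D : PrimeDiv M.X, M.IsD D

/-- XORF: orders of polynomials in the coordinates of a chart. -/
def S_XORF : Prop :=
  ∀ (M : XData) (ξ : Fin 3 → M.X.functionField), M.IsXi ξ →
    letI : Algebra ℂ M.X.functionField := (ffHom M.str).toAlgebra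
    ∀ (i : Fin 3) (p : PrimeDiv M.X) (F : MvPolynomial (Fin 3) ℂ), Qc (ch i) ∉ M.P p.1 →
      (IsPr M.str (xi ξ i) p.1 (Ideal.span {F}) → Scheme.ord (aeval (xi ξ i) F) p.1 = 1) ∧
      (∀ P, IsPr M.str (xi ξ i) p.1 P → F ∉ P → Scheme.ord (aeval (xi ξ i) F) p.1 = 0)

/-- XODX: orders of the coordinates at the divisor `x_0 = 0`. -/
def S_XODX : Prop :=
  ∀ (M : XData) (ξ : Fin 3 → M.X.functionField), M.IsXi ξ → ∀ D, M.IsD D →
    Scheme.ord (ξ 0) D.1 = -1 ∧ Scheme.ord (ξ 1) D.1 = -1 ∧ Scheme.ord (ξ 2) D.1 = -2 ∧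
    IsPr M.str (xi ξ 1) D.1 (Ideal.span {X 0})

/-- XPOL: change of the chart for polynomials. -/
def S_XPOL : Prop :=
  ∀ F : MvPolynomial (Fin 3) ℂ, F ≠ 0 → ∃ (d : ℕ) (G : MvPolynomial (Fin 3) ℂ),
    G ∉ Ideal.span {(X 0 : MvPolynomial (Fin 3) ℂ)} ∧
    ∀ (K : Type) [Field K] [Algebra ℂ K] (a : Fin 3 → K), a 0 ≠ 0 →
      aeval a F * (a 0)⁻¹ ^ d = aeval (xi a 1) G

/-- XPOS: polynomials in `ξ` have poles along `D`. -/
def S_XPOS : Prop :=
  ∀ (M : XData) (ξ : Fin 3 → M.X.functionField), M.IsXi ξ → ∀ D, M.IsD D →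
    letI : Algebra ℂ M.X.functionField := (ffHom M.str).toAlgebra
    ∀ F : MvPolynomial (Fin 3) ℂ, F ≠ 0 → Scheme.ord (aeval ξ F) D.1 ≤ 0

/-- XREG: a rational function without poles outside `D` is a polynomial in `ξ`. -/
def S_XREG : Prop :=
  ∀ (M : XData) (ξ : Fin 3 → M.X.functionField), M.IsXi ξ → ∀ D, M.IsD D →
    letI : Algebra ℂ M.X.functionField := (ffHom M.str).toAlgebra
    ∀ f : M.X.functionField, f ≠ 0 → (∀ p : PrimeDiv M.X, p ≠ D → 0 ≤ Scheme.ord f p.1) →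
      ∃ F : MvPolynomial (Fin 3) ℂ, f = aeval ξ F

/-- XCLG: the class group is generated by `D`. -/
def S_XCLG : Prop :=
  ∀ (M : XData), ∀ D, M.IsD D → ∀ E : WeilDiv M.X, ∃ k : ℤ, LinEquiv E (k • Finsupp.single D 1)

/-- `dg` is the degree homomorphism on the divisors of the variety. -/
structure XData.IsDg (M : XData) (D : PrimeDiv M.X) (dg : WeilDiv M.X →+ ℤ) : Prop where
  one : dg (Finsupp.single D 1) = 1
  lin : ∀ E E', LinEquiv E E' ↔ dg E = dg E'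
  eff : ∀ E, 0 ≤ E → 0 ≤ dg E

/-- XDEG: the degree homomorphism exists. -/
def S_XDEG : Prop := ∀ (M : XData), ∀ D, M.IsD D → ∃ dg : WeilDiv M.X →+ ℤ, M.IsDg D dg

/-- XCAR: equations of the multiples of `2 D`. -/
def S_XCAR : Prop :=
  ∀ (M : XData) (ξ : Fin 3 → M.X.functionField), M.IsXi ξ → ∀ D, M.IsD D →
    ∀ (k : ℤ) (q : Fin 4) (x : M.X), Qc q ∉ M.P x →
      IsEq ((2 * k) • (Finsupp.single D 1 : WeilDiv M.X)) x ((wq ξ q)⁻¹ ^ k)

/-- XAMP: positive multiples of `D` are ample. -/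
def S_XAMP : Prop :=
  ∀ (M : XData), ∀ D, M.IsD D → ∀ k : ℕ, 0 < k →
    IsAmple (k • (Finsupp.single D 1 : WeilDiv M.X))

/-- XCOO: the coordinates of the chart `i` are local coordinates. -/
def S_XCOO : Prop :=
  ∀ (M : XData) (ξ : Fin 3 → M.X.functionField), M.IsXi ξ → ∀ (i : Fin 3),
    IsDiffBasis (ffHom M.str) (xi ξ i) ∧ ∀ (x : M.X), Qc (ch i) ∉ M.P x →
      ∃ t : Fin 3 → M.X.presheaf.stalk x, IsDiffBasis (stkHom M.str x) t ∧
        ∀ k, algebraMap _ M.X.functionField (t k) = xi ξ i k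

/-- XDET: comparison of two bases of differentials. -/
def S_XDET : Prop :=
  ∀ (K : Type) [Field K] (φ : ℂ →+* K) (ξ : Fin 3 → K), ξ 0 ≠ 0 → IsDiffBasis φ ξ →
    IsDiffBasis φ (xi ξ 1) → IsJacobian φ (xi ξ 1) ξ (-ξ 0 ^ 5)

/-- XCAN: the canonical divisor. -/
def S_XCAN : Prop :=
  ∀ (M : XData) (ξ : Fin 3 → M.X.functionField), M.IsXi ξ → ∀ D, M.IsD D →
    ∀ p : PrimeDiv M.X, FormOrd M.str ξ p (((-5 : ℤ) • (Finsupp.single D 1 : WeilDiv M.X)) p)

/-- XCPT: closed points of the variety. -/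
def S_XCPT : Prop :=
  ∀ (M : XData) (v : Fin 10 → ℂ), (∃ x : M.X, IsPt (M.emb x) v) ↔
    (v ≠ 0 ∧ (∀ i j, v (eI.symm (some (i, j))) = v (eI.symm (some (j, i)))) ∧
      ∀ i j i' j', v (eI.symm (some (i, j))) * v (eI.symm (some (i', j'))) =
        v (eI.symm (some (i, j'))) * v (eI.symm (some (i', j))))

end GMC
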